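import Pool.Agent.U770.FM.Tr

/-!
# The linear maps which commute with a homogeneous map without zeros are finite in number
-/

set_option autoImplicit false
set_option linter.unusedSectionVars false

open Module MvPolynomial

namespace Pool.Agent.U770.FM

variable {n : ℕ}

/-- the self-map of the affine space given by a tuple of polynomials -/
noncomputable def ev (P : Fin n → MvPolynomial (Fin n) QB) (v : Fin n → QB) : Fin n → QB :=
  fun i => eval v (P i)

/-- a tuple of forms of degree `d` without common zero -/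
structure Good (d : ℕ) (P : Fin n → MvPolynomial (Fin n) QB) : Prop where
  hom : ∀ i, (P i).IsHomogeneous d
  nz : ∀ v : Fin n → QB, ev P v = 0 → v = 0

theorem supp_sum {d : ℕ} {Q : MvPolynomial (Fin n) QB} (hQ : Q.IsHomogeneous d)
    {m : Fin n →₀ ℕ} (hm : m ∈ Q.support) : ∑ i ∈ m.support, m i = d := by
  have h2 := hQ (mem_support_iff.1 hm)
  rw [← h2, Finsupp.weight_apply, Finsupp.sum]
  simp

theorem eval_smul_of {d : ℕ} {Q : MvPolynomial (Fin n) QB} (hQ : Q.IsHomogeneous d) (c : QB)
    (v : Fin n → QB) : eval (c • v) Q = c ^ d * eval v Q := by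
  rw [eval_eq, eval_eq, Finset.mul_sum]
  refine Finset.sum_congr rfl fun m hm => ?_
  have h3 : ∏ i ∈ m.support, (c • v) i ^ m i = c ^ d * ∏ i ∈ m.support, v i ^ m i := by
    rw [← supp_sum hQ hm, ← Finset.prod_pow_eq_pow_sum, ← Finset.prod_mul_distrib]
    refine Finset.prod_congr rfl fun i _ => ?_
    rw [Pi.smul_apply, smul_eq_mul, mul_pow]
  rw [h3]
  ring

theorem ev_smul {d : ℕ} {P : Fin n → MvPolynomial (Fin n) QB} (hP : Good d P) (c : QB)
    (v : Fin n → QB) : ev P (c • v) = c ^ d • ev P v := by
  funext i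
  exact eval_smul_of (hP.hom i) c v

/-- top coefficient of a substitution -/
theorem coeff_top {d r : ℕ} {Q : MvPolynomial (Fin n) QB} (hQ : Q.IsHomogeneous d)
    (p : Fin n → Polynomial QB) (hp : ∀ i, (p i).natDegree ≤ r) :
    (aeval p Q).coeff (d * r) = eval (fun i => (p i).coeff r) Q := by
  rw [aeval_def, eval₂_eq, eval_eq, Polynomial.finsetSum_coeff]
  refine Finset.sum_congr rfl fun m hm => ?_
  have h1 : ∑ i ∈ m.support, m i = d := supp_sum hQ hm
  rw [Polynomial.algebraMap_eq, Polynomial.coeff_C_mul]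
  congr 1
  rw [← h1, Finset.sum_mul]
  have key : ∀ s : Finset (Fin n), (∏ i ∈ s, p i ^ m i).natDegree ≤ ∑ i ∈ s, m i * r ∧
      (∏ i ∈ s, p i ^ m i).coeff (∑ i ∈ s, m i * r) = ∏ i ∈ s, (p i).coeff r ^ m i := by
    intro s
    classical
    induction s using Finset.induction_on with
    | empty => simp
    | insert a s ha ih =>
      have h3 : (p a ^ m a).natDegree ≤ m a * r :=
        (Polynomial.natDegree_pow_le).trans (Nat.mul_le_mul_left _ (hp a))
      rw [Finset.prod_insert ha, Finset.sum_insert ha, Finset.prod_insert ha]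
      refine ⟨(Polynomial.natDegree_mul_le).trans (Nat.add_le_add h3 ih.1), ?_⟩
      rw [Polynomial.coeff_mul_add_eq_of_natDegree_le h3 ih.1, ih.2,
        Polynomial.coeff_pow_of_natDegree_le (hp a)]
  exact (key m.support).2


theorem eigen_pow_deg {d : ℕ} {P : Fin n → MvPolynomial (Fin n) QB} (hP : Good d P)
    {T : End QB (Fin n → QB)} (hT : ∀ v, T (ev P v) = ev P (T v)) {z : QB}
    (hz : T.HasEigenvalue z) : T.HasEigenvalue (z ^ d) := by
  obtain ⟨v, hv⟩ := hz.exists_hasEigenvector
  have h1 : T (ev P v) = z ^ d • ev P v := by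
    rw [hT, hv.apply_eq_smul, ev_smul hP]
  exact Module.End.hasEigenvalue_of_hasEigenvector
    ⟨Module.End.mem_eigenspace_iff.2 h1, fun h => hv.2 (hP.nz v h)⟩

theorem eigen_order {d : ℕ} (hd : 2 ≤ d) {P : Fin n → MvPolynomial (Fin n) QB} (hP : Good d P)
    {T : End QB (Fin n → QB)} (hinj : Function.Injective T) (hT : ∀ v, T (ev P v) = ev P (T v))
    {z : QB} (hz : T.HasEigenvalue z) : z ^ (d ^ n).factorial = 1 := by
  classical
  obtain ⟨m, h1, h2, -⟩ := exists_eigen T
  have h3 : ∀ j : ℕ, z ^ d ^ j ∈ m.toFinset := by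
    intro j
    rw [Multiset.mem_toFinset, h2]
    induction j with
    | zero => simpa using hz
    | succ j ih =>
      rw [pow_succ, pow_mul]
      exact eigen_pow_deg hP hT ih
  have h4 : m.toFinset.card < (Finset.range (n + 1)).card := by
    rw [Finset.card_range]
    have := Multiset.toFinset_card_le m
    rw [h1, Module.finrank_fin_fun] at this
    omega
  obtain ⟨i, hi, j, hj, hij, he⟩ := Finset.exists_ne_map_eq_of_card_lt_of_maps_to h4
    (f := fun j => z ^ d ^ j) (fun j _ => h3 j)
  have hz0 : z ≠ 0 := by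
    rintro rfl
    obtain ⟨v, hv⟩ := hz.exists_hasEigenvector
    have h5 := hv.apply_eq_smul
    rw [zero_smul] at h5
    exact hv.2 (hinj (by rw [h5, map_zero]))
  have key : ∀ i j : ℕ, i < j → j ≤ n → z ^ d ^ i = z ^ d ^ j → z ^ (d ^ n).factorial = 1 := by
    intro i j hij hj he
    have hlt : d ^ i < d ^ j := Nat.pow_lt_pow_right (by omega) hij
    have h5 : z ^ (d ^ j - d ^ i) = 1 := by
      have h6 : z ^ d ^ i * z ^ (d ^ j - d ^ i) = z ^ d ^ i * 1 := by
        rw [← pow_add, Nat.add_sub_cancel' hlt.le, mul_one, he]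
      exact mul_left_cancel₀ (pow_ne_zero _ hz0) h6
    have h6 : d ^ j - d ^ i ∣ (d ^ n).factorial := by
      apply Nat.dvd_factorial (by omega)
      exact (Nat.sub_le _ _).trans (Nat.pow_le_pow_right (by omega) hj)
    obtain ⟨c, hc⟩ := h6
    rw [hc, pow_mul, h5, one_pow]
  simp only [Finset.mem_range] at hi hj
  rcases lt_or_gt_of_ne hij with h | h
  · exact key i j h (by omega) he
  · exact key j i h (by omega) he.symm

/-- a unipotent linear map which commutes with the homogeneous map is trivial -/
theorem unipotent_eq_one {d : ℕ} (hd : 2 ≤ d) {P : Fin n → MvPolynomial (Fin n) QB}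
    (hP : Good d P) {T : End QB (Fin n → QB)} (hT : ∀ v, T (ev P v) = ev P (T v))
    (hN : IsNilpotent (T - 1)) : T = 1 := by
  classical
  by_contra hne
  set N := T - 1 with hNdef
  have hN0 : N ≠ 0 := fun h => hne (sub_eq_zero.1 h)
  -- the largest nonzero power
  obtain ⟨r, hr1, hr2⟩ : ∃ r : ℕ, N ^ r ≠ 0 ∧ N ^ (r + 1) = 0 := by
    have hex : ∃ j, N ^ j = 0 := hN
    have h1 := Nat.find_spec hex
    have h0 : Nat.find hex ≠ 0 := by
      intro h
      rw [h, pow_zero] at h1
      exact hN0 (by rw [← mul_one N, h1, mul_zero])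
    refine ⟨Nat.find hex - 1, Nat.find_min hex (by omega), ?_⟩
    rw [Nat.sub_add_cancel (by omega)]
    exact h1
  have hr : 1 ≤ r := by
    rcases Nat.eq_zero_or_pos r with h | h
    · subst h
      rw [zero_add, pow_one] at hr2
      exact absurd hr2 hN0
    · exact h
  obtain ⟨y, hy⟩ : ∃ y, (N ^ r) y ≠ 0 := by
    by_contra h
    push Not at h
    exact hr1 (LinearMap.ext fun y => by simpa using h y)
  have hNz : ∀ j, r < j → N ^ j = 0 := fun j hj => by
    obtain ⟨c, rfl⟩ := Nat.exists_eq_add_of_le (show r + 1 ≤ j from hj)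
    rw [pow_add, hr2, zero_mul]
  have hTp : ∀ m : ℕ, ∀ v, (T ^ m) v = ∑ j ∈ Finset.range (r + 1), (m.choose j : QB) • (N ^ j) v := by
    intro m v
    have h1 : T = N + 1 := by rw [hNdef, sub_add_cancel]
    rw [h1, (Commute.one_right N).add_pow]
    have h2 : ∀ K : ℕ, m < K → (∑ j ∈ Finset.range (m + 1), N ^ j * 1 ^ (m - j) * (m.choose j : End QB (Fin n → QB))) v =
        ∑ j ∈ Finset.range K, (m.choose j : QB) • (N ^ j) v := by
      intro K hK
      rw [LinearMap.sum_apply]
      refine Finset.sum_subset_zero_on_sdiff ?_ ?_ ?_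
      · intro x hx
        simp only [Finset.mem_range] at hx ⊢
        omega
      · intro x hx
        simp only [Finset.mem_sdiff, Finset.mem_range] at hx
        rw [Nat.choose_eq_zero_of_lt (by omega)]
        simp
      · intro x _
        rw [one_pow, mul_one]
        rw [← nsmul_eq_mul', LinearMap.smul_apply, Nat.cast_smul_eq_nsmul]
    rw [h2 (m + r + 1) (by omega)]
    symm
    refine Finset.sum_subset_zero_on_sdiff ?_ ?_ (fun _ _ => rfl)
    · intro x hx
      simp only [Finset.mem_range] at hx ⊢
      omega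
    · intro x hx
      simp only [Finset.mem_sdiff, Finset.mem_range] at hx
      rw [hNz x (by omega), LinearMap.zero_apply, smul_zero]
  have hcomm : ∀ m : ℕ, ∀ v, (T ^ m) (ev P v) = ev P ((T ^ m) v) := by
    intro m
    induction m with
    | zero => intro v; simp
    | succ m ih => intro v; rw [pow_succ, Module.End.mul_apply, Module.End.mul_apply, hT, ih]
  -- polynomials in `m`
  let pl : (Fin n → QB) → Fin n → Polynomial QB := fun v i =>
    ∑ j ∈ Finset.range (r + 1), Polynomial.C (((N ^ j) v i) * ((j.factorial : QB))⁻¹) * descPochhammer QB j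
  have hple : ∀ v i (m : ℕ), (pl v i).eval (m : QB) = (T ^ m) v i := by
    intro v i m
    rw [hTp, Finset.sum_apply, Polynomial.eval_finsetSum]
    refine Finset.sum_congr rfl fun j _ => ?_
    rw [Polynomial.eval_mul, Polynomial.eval_C, descPochhammer_eval_eq_descFactorial,
      Nat.descFactorial_eq_factorial_mul_choose]
    have hj : (j.factorial : QB) ≠ 0 := by exact_mod_cast j.factorial_ne_zero
    push_cast
    rw [Pi.smul_apply, smul_eq_mul]
    field_simp
  have hpld : ∀ v i, (pl v i).natDegree ≤ r := by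
    intro v i
    refine Polynomial.natDegree_sum_le_of_forall_le _ _ fun j hj => ?_
    refine (Polynomial.natDegree_C_mul_le _ _).trans ?_
    rw [descPochhammer_natDegree]
    exact Nat.lt_succ_iff.1 (Finset.mem_range.1 hj)
  have hplc : ∀ v i, (pl v i).coeff r = (N ^ r) v i * ((r.factorial : QB))⁻¹ := by
    intro v i
    rw [Polynomial.finsetSum_coeff, Finset.sum_range_succ, Finset.sum_eq_zero, zero_add,
      Polynomial.coeff_C_mul]
    · have h1 : (descPochhammer QB r).coeff r = 1 := by
        have h2 := monic_descPochhammer QB r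
        unfold Polynomial.Monic Polynomial.leadingCoeff at h2
        rwa [descPochhammer_natDegree] at h2
      rw [h1, mul_one]
    · intro j hj
      rw [Polynomial.coeff_C_mul, Polynomial.coeff_eq_zero_of_natDegree_lt, mul_zero]
      rw [descPochhammer_natDegree]
      exact Finset.mem_range.1 hj
  have heq : ∀ i, aeval (pl y) (P i) = pl (ev P y) i := by
    intro i
    refine Polynomial.eq_of_infinite_eval_eq _ _ ?_
    refine (Set.infinite_range_of_injective (Nat.cast_injective (R := QB))).mono ?_
    rintro _ ⟨m, rfl⟩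
    change Polynomial.eval (m : QB) (aeval (pl y) (P i)) = Polynomial.eval (m : QB) (pl (ev P y) i)
    rw [hple, hcomm]
    have h1 : Polynomial.eval (m : QB) (aeval (pl y) (P i)) =
        eval (fun l => Polynomial.eval (m : QB) (pl y l)) (P i) := by
      rw [aeval_def, eval₂_eq, eval_eq, Polynomial.eval_finsetSum]
      refine Finset.sum_congr rfl fun c _ => ?_
      rw [Polynomial.algebraMap_eq, Polynomial.eval_mul, Polynomial.eval_C, Polynomial.eval_prod]
      congr 1
      refine Finset.prod_congr rfl fun l _ => ?_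
      rw [Polynomial.eval_pow]
    rw [h1]
    change _ = eval ((T ^ m) y) (P i)
    congr 2
    funext l
    exact hple y l m
  have hz : (fun i => (pl y i).coeff r) = 0 := by
    apply hP.nz
    funext i
    change eval (fun i => (pl y i).coeff r) (P i) = 0
    rw [← coeff_top (hP.hom i) (pl y) (hpld y), heq]
    refine Polynomial.coeff_eq_zero_of_natDegree_lt (lt_of_le_of_lt (hpld _ i) ?_)
    calc r < 2 * r := by omega
      _ ≤ d * r := Nat.mul_le_mul_right _ hd
  apply hy
  funext i
  have h1 := congrFun hz i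
  simp only [Pi.zero_apply] at h1
  rw [hplc] at h1
  have h2 : ((r.factorial : QB))⁻¹ ≠ 0 := inv_ne_zero (by exact_mod_cast r.factorial_ne_zero)
  exact (mul_eq_zero.1 h1).resolve_right h2

theorem prod_dvd {E : ℕ} (m : Multiset QB) (h : ∀ z ∈ m, z ^ E = 1) :
    (m.map fun z => (Polynomial.X - Polynomial.C z : Polynomial QB)).prod ∣
      (Polynomial.X ^ E - 1) ^ (Multiset.card m) := by
  induction m using Multiset.induction_on with
  | empty => simp
  | cons a m ih =>
    rw [Multiset.map_cons, Multiset.prod_cons, Multiset.card_cons, pow_succ']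
    refine mul_dvd_mul ?_ (ih fun z hz => h z (Multiset.mem_cons_of_mem hz))
    rw [Polynomial.dvd_iff_isRoot]
    simp [h a (Multiset.mem_cons_self a m)]

/-- **The linear maps which commute with a homogeneous map without zeros** -/
theorem aut_pow {d : ℕ} (hd : 2 ≤ d) {P : Fin n → MvPolynomial (Fin n) QB} (hP : Good d P)
    {T : End QB (Fin n → QB)} (hinj : Function.Injective T) (hT : ∀ v, T (ev P v) = ev P (T v)) :
    T ^ (d ^ n).factorial = 1 := by
  have hcomm : ∀ m : ℕ, ∀ v, (T ^ m) (ev P v) = ev P ((T ^ m) v) := by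
    intro m
    induction m with
    | zero => intro v; simp
    | succ m ih => intro v; rw [pow_succ, Module.End.mul_apply, Module.End.mul_apply, hT, ih]
  refine unipotent_eq_one hd hP (hcomm _) ?_
  have h1 : T.charpoly ∣ (Polynomial.X ^ (d ^ n).factorial - 1) ^ (Multiset.card T.charpoly.roots) := by
    have h2 := prod_dvd (E := (d ^ n).factorial) T.charpoly.roots (fun z hz => by
      refine eigen_order hd hP hinj hT ?_
      rw [Module.End.hasEigenvalue_iff_isRoot_charpoly]
      exact (Polynomial.mem_roots (LinearMap.charpoly_monic T).ne_zero).1 hz)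
    have h3 := (IsAlgClosed.splits T.charpoly).eq_prod_roots_of_monic (LinearMap.charpoly_monic T)
    rwa [← h3] at h2
  obtain ⟨q, hq⟩ := h1
  refine ⟨Multiset.card T.charpoly.roots, ?_⟩
  have h4 := congrArg (Polynomial.aeval T) hq
  rw [map_mul, LinearMap.aeval_self_charpoly, zero_mul] at h4
  simpa using h4

theorem aut_finite {d : ℕ} (hd : 2 ≤ d) {P : Fin n → MvPolynomial (Fin n) QB} (hP : Good d P) :
    {T : End QB (Fin n → QB) | Function.Injective T ∧ ∀ v, T (ev P v) = ev P (T v)}.Finite := by
  refine (exponent_bound (M := (d ^ n).factorial) (Nat.factorial_pos _) _ ?_ ?_ ?_).1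
  · exact ⟨Function.injective_id, fun v => rfl⟩
  · rintro x ⟨hx1, hx2⟩ y ⟨hy1, hy2⟩
    refine ⟨hx1.comp hy1, fun v => ?_⟩
    rw [Module.End.mul_apply, Module.End.mul_apply, hy2, hx2]
  · rintro x ⟨hx1, hx2⟩
    exact aut_pow hd hP hx1 hx2

end Pool.Agent.U770.FM
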