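import Mathlib

/-!
# Galois descent for semilinear actions of open subgroups of the absolute Galois group of `ℚ`
-/

set_option autoImplicit false

open IntermediateField

namespace Pool.Agent.U770.FM

/-- the algebraic numbers -/
abbrev QB : Type := AlgebraicClosure ℚ

instance algQB : Algebra.IsAlgebraic ℚ QB := by
  have h := AlgebraicClosure.isAlgebraic ℚ
  have e : (DivisionRing.toRatAlgebra : Algebra ℚ QB) = AlgebraicClosure.instAlgebra ℚ :=
    Subsingleton.elim _ _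
  rw [e]
  exact h

instance closQB : IsAlgClosure ℚ QB := ⟨inferInstance, inferInstance⟩

/-- the absolute Galois group -/
abbrev GQ : Type := QB ≃ₐ[ℚ] QB

/-- **Galois descent.** -/
theorem descent {R : Type} [AddCommGroup R] [Module QB R] (U : Subgroup GQ)
    (act : GQ → R → R)
    (hadd : ∀ σ ∈ U, ∀ r s, act σ (r + s) = act σ r + act σ s)
    (hmul : ∀ σ ∈ U, ∀ τ ∈ U, ∀ r, act (σ * τ) r = act σ (act τ r))
    (hsemi : ∀ σ ∈ U, ∀ (c : QB) r, act σ (c • r) = σ c • act σ r)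
    (hsm : ∀ r, ∃ Ω : IntermediateField ℚ QB, FiniteDimensional ℚ Ω ∧
      ∀ σ ∈ Ω.fixingSubgroup, σ ∈ U ∧ act σ r = r) :
    Submodule.span QB {r | ∀ σ ∈ U, act σ r = r} = ⊤ := by
  classical
  by_contra hne
  obtain ⟨r, hr⟩ : ∃ r, r ∉ Submodule.span QB {r | ∀ σ ∈ U, act σ r = r} := by
    by_contra h
    push Not at h
    exact hne (eq_top_iff.2 fun x _ => h x)
  obtain ⟨φ, hφr, hφ⟩ := Submodule.exists_le_ker_of_notMem hr
  obtain ⟨Ω₀, hΩ₀, hfix⟩ := hsm r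
  let Ω : IntermediateField ℚ QB := normalClosure ℚ Ω₀ QB
  have hfd : FiniteDimensional ℚ Ω := normalClosure.is_finiteDimensional ℚ Ω₀ QB
  have hnQB : Normal ℚ QB := IsAlgClosure.normal ℚ QB
  have hnor : Normal ℚ Ω := normalClosure.normal ℚ Ω₀ QB
  have hle : Ω₀ ≤ Ω := IntermediateField.le_normalClosure Ω₀
  let res : GQ →* (Ω ≃ₐ[ℚ] Ω) := AlgEquiv.restrictNormalHom Ω
  have hresapp : ∀ (σ : GQ) (y : Ω), ((res σ y : Ω) : QB) = σ y := fun σ y =>
    AlgEquiv.restrictNormal_commutes σ Ω y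
  have hker : ∀ δ : GQ, res δ = 1 → (∀ y : Ω, δ (y : QB) = y) ∧ δ ∈ U ∧ act δ r = r := by
    intro δ hδ
    have h1 : ∀ y : Ω, δ (y : QB) = y := by
      intro y
      rw [← hresapp, hδ]
      rfl
    refine ⟨h1, hfix δ ?_⟩
    rw [IntermediateField.mem_fixingSubgroup_iff]
    intro x hx
    exact h1 ⟨x, hle hx⟩
  let Q : Subgroup (Ω ≃ₐ[ℚ] Ω) := U.map res
  have hlift : ∀ q : Q, ∃ σ : GQ, σ ∈ U ∧ res σ = q := by
    rintro ⟨q, σ, hσ, rfl⟩
    exact ⟨σ, hσ, rfl⟩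
  choose ℓ hℓU hℓ using hlift
  have key : ∀ σ ∈ U, ∀ τ ∈ U, res σ = res τ → ∀ y : Ω,
      act σ ((y : QB) • r) = act τ ((y : QB) • r) := by
    intro σ hσ τ hτ hst y
    have hd : res (τ⁻¹ * σ) = 1 := by
      rw [map_mul, map_inv, hst, inv_mul_cancel]
    obtain ⟨h1, h2, h3⟩ := hker _ hd
    have h4 : σ = τ * (τ⁻¹ * σ) := by group
    rw [h4, hmul τ hτ _ h2, hsemi _ h2, h1, h3]
  let t : Ω → R := fun y => ∑ q : Q, act (ℓ q) ((y : QB) • r)
  have hsum : ∀ ρ ∈ U, ∀ (g : Q → R), act ρ (∑ q : Q, g q) = ∑ q : Q, act ρ (g q) := by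
    intro ρ hρ g
    exact map_sum (AddMonoidHom.mk' (act ρ) (hadd ρ hρ)) g Finset.univ
  have ht : ∀ y, ∀ ρ ∈ U, act ρ (t y) = t y := by
    intro y ρ hρ
    have hρQ : res ρ ∈ Q := ⟨ρ, hρ, rfl⟩
    change act ρ (∑ q : Q, act (ℓ q) ((y : QB) • r)) = ∑ q : Q, act (ℓ q) ((y : QB) • r)
    rw [hsum ρ hρ]
    refine Eq.trans ?_ (Equiv.sum_comp (Equiv.mulLeft (⟨res ρ, hρQ⟩ : Q))
      (fun q => act (ℓ q) ((y : QB) • r)))
    refine Finset.sum_congr rfl fun q _ => ?_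
    rw [← hmul ρ hρ _ (hℓU q)]
    apply key _ (U.mul_mem hρ (hℓU q)) _ (hℓU _)
    rw [map_mul, hℓ, hℓ]
    rfl
  have hzero : ∀ y : Ω, ∑ q : Q, φ (act (ℓ q) r) * (ℓ q) (y : QB) = 0 := by
    intro y
    have h1 : φ (t y) = 0 := hφ (Submodule.subset_span (ht y))
    have h2 : φ (t y) = ∑ q : Q, φ (act (ℓ q) ((y : QB) • r)) := map_sum φ _ _
    rw [h2] at h1
    rw [← h1]
    refine Finset.sum_congr rfl fun q _ => ?_
    rw [hsemi _ (hℓU q), map_smul, smul_eq_mul, mul_comm]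
  let f : Q → (Ω →* QB) := fun q =>
    ((ℓ q : QB →* QB)).comp (algebraMap Ω QB : Ω →* QB)
  have hf : ∀ (q : Q) (y : Ω), f q y = (ℓ q) (y : QB) := fun _ _ => rfl
  have hinj : Function.Injective f := by
    intro q q' h
    have h1 : res (ℓ q) = res (ℓ q') := by
      apply AlgEquiv.ext
      intro y
      apply Subtype.ext
      rw [hresapp, hresapp, ← hf, ← hf, h]
    rw [hℓ, hℓ] at h1
    exact Subtype.ext h1
  have hli := (linearIndependent_monoidHom Ω QB).comp f hinj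
  have h3 := (Fintype.linearIndependent_iff.1 hli) (fun q => φ (act (ℓ q) r)) (by
    funext y
    rw [Finset.sum_apply]
    simp only [Function.comp_apply, Pi.smul_apply, smul_eq_mul, Pi.zero_apply]
    exact hzero y) 1
  have h4 := hker (ℓ 1) (by rw [hℓ]; rfl)
  rw [h4.2.2] at h3
  exact hφr h3

end Pool.Agent.U770.FM
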