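import Pool.Agent.U770.FM.Main

/-!
# The degree of the field of invariants, and an invariant basis
-/

set_option autoImplicit false
set_option linter.unusedSectionVars false

open Module MvPolynomial

namespace Pool.Agent.U770.FM

/-- the fixed field of a set of automorphisms -/
def fixF (S : Set GQ) : IntermediateField ℚ QB where
  carrier := {x | ∀ σ ∈ S, σ x = x}
  mul_mem' := fun {x y} hx hy σ hσ => by rw [map_mul, hx σ hσ, hy σ hσ]
  add_mem' := fun {x y} hx hy σ hσ => by rw [map_add, hx σ hσ, hy σ hσ]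
  algebraMap_mem' := fun r σ _ => σ.commutes r
  inv_mem' := fun x hx σ hσ => by rw [map_inv₀, hx σ hσ]

theorem mem_fixF {S : Set GQ} {x : QB} : x ∈ fixF S ↔ ∀ σ ∈ S, σ x = x := Iff.rfl

/-- **Artin's argument.** -/
theorem artin {G : Type} [Group G] (χ : G →* GQ) (H : Subgroup G) {D : ℕ} (hc : CovX χ H D)
    {s : Type} [Fintype s] (hs : D < Fintype.card s) (x : s → QB) (hx : ∀ i, x i ∈ fixF (χ '' H)) :
    ∃ c : s → QB, c ≠ 0 ∧ (∀ i, c i ∈ fixF (Set.range χ)) ∧ ∑ i, c i * x i = 0 := by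
  classical
  obtain ⟨T, hT, hcov⟩ := hc
  let P : (s → QB) → Prop := fun c => c ≠ 0 ∧ ∀ g : G, ∑ i, c i * χ g (x i) = 0
  have hex : ∃ c, P c := by
    let L : (s → QB) →ₗ[QB] (T → QB) :=
      { toFun := fun c t => ∑ i, c i * χ t.1 (x i)
        map_add' := fun c c' => by
          funext t
          change ∑ i, (c i + c' i) * _ = ∑ i, c i * _ + ∑ i, c' i * _
          rw [← Finset.sum_add_distrib]
          exact Finset.sum_congr rfl fun i _ => add_mul _ _ _
        map_smul' := fun a c => by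
          funext t
          change ∑ i, (a * c i) * _ = a * ∑ i, c i * _
          rw [Finset.mul_sum]
          exact Finset.sum_congr rfl fun i _ => mul_assoc _ _ _ }
    have h1 : finrank QB (T → QB) < finrank QB (s → QB) := by
      rw [Module.finrank_fintype_fun_eq_card, Module.finrank_fintype_fun_eq_card, Fintype.card_coe]
      omega
    obtain ⟨c, hc, hc0⟩ := Submodule.exists_mem_ne_zero_of_ne_bot (LinearMap.ker_ne_bot_of_finrank_lt (f := L) h1)
    refine ⟨c, hc0, fun g => ?_⟩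
    obtain ⟨t, ht, h, hh, e⟩ := hcov g
    have h2 : ∀ i, χ g (x i) = χ t (x i) := by
      intro i
      rw [e]
      change χ t (χ h (x i)) = _
      rw [hx i (χ h) ⟨h, hh, rfl⟩]
    have h3 : ∑ i, c i * χ t (x i) = 0 := congrFun (LinearMap.mem_ker.1 hc) ⟨t, ht⟩
    rw [← h3]
    exact Finset.sum_congr rfl fun i _ => by rw [h2]
  have hex2 : ∃ k, ∃ c, P c ∧ (Finset.univ.filter fun i => c i ≠ 0).card = k := by
    obtain ⟨c, hc⟩ := hex
    exact ⟨_, c, hc, rfl⟩
  obtain ⟨c, ⟨hc0, hc⟩, hcard⟩ := Nat.find_spec hex2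
  have hmin : ∀ c', P c' → (Finset.univ.filter fun i => c i ≠ 0).card ≤
      (Finset.univ.filter fun i => c' i ≠ 0).card := by
    intro c' hc'
    rw [hcard]
    exact Nat.find_min' hex2 ⟨c', hc', rfl⟩
  obtain ⟨i0, hi0⟩ : ∃ i, c i ≠ 0 := by
    by_contra h
    push Not at h
    exact hc0 (funext h)
  let c1 : s → QB := fun i => (c i0)⁻¹ * c i
  have h10 : c1 i0 = 1 := inv_mul_cancel₀ hi0
  have h11 : ∀ g : G, ∑ i, c1 i * χ g (x i) = 0 := by
    intro g
    simp only [c1, mul_assoc]
    rw [← Finset.mul_sum, hc g, mul_zero]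
  have h12 : ∀ i, c i = 0 → c1 i = 0 := fun i hi => by simp only [c1, hi, mul_zero]
  refine ⟨c1, fun h => ?_, ?_, ?_⟩
  · rw [h] at h10
    exact zero_ne_one h10
  · rintro i _ ⟨g, rfl⟩
    by_contra hne
    let c2 : s → QB := fun i => χ g (c1 i) - c1 i
    have h2 : P c2 := by
      refine ⟨fun h => hne (sub_eq_zero.1 (congrFun h i)), fun g' => ?_⟩
      simp only [c2, sub_mul]
      rw [Finset.sum_sub_distrib, h11 g', sub_zero]
      have h3 := congrArg (χ g) (h11 (g⁻¹ * g'))
      rw [map_zero, map_sum] at h3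
      rw [← h3]
      refine Finset.sum_congr rfl fun i _ => ?_
      rw [map_mul (χ g) (c1 i)]
      have h5 : χ g (χ (g⁻¹ * g') (x i)) = χ g' (x i) := by
        change (χ g * χ (g⁻¹ * g')) (x i) = _
        rw [← map_mul, mul_inv_cancel_left]
      rw [h5]
    have h3 := hmin c2 h2
    have h4 : (Finset.univ.filter fun i => c2 i ≠ 0) ⊂ (Finset.univ.filter fun i => c i ≠ 0) := by
      rw [Finset.ssubset_iff_of_subset]
      · refine ⟨i0, Finset.mem_filter.2 ⟨Finset.mem_univ _, hi0⟩, fun h => ?_⟩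
        apply (Finset.mem_filter.1 h).2
        change χ g (c1 i0) - c1 i0 = 0
        rw [h10, map_one, sub_self]
      · intro j hj
        refine Finset.mem_filter.2 ⟨Finset.mem_univ _, fun h => (Finset.mem_filter.1 hj).2 ?_⟩
        change χ g (c1 j) - c1 j = 0
        rw [h12 j h, map_zero, sub_self]
    exact absurd (Finset.card_lt_card h4) (not_lt.2 h3)
  · have h2 := h11 1
    rw [map_one] at h2
    exact h2

theorem artin_rank {G : Type} [Group G] (χ : G →* GQ) (H : Subgroup G) {D : ℕ} (hc : CovX χ H D) :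
    IntermediateField.relrank (fixF (Set.range χ)) (fixF (χ '' H)) ≤ D := by
  classical
  have hle : fixF (Set.range χ) ≤ fixF (χ '' H) := by
    rintro x hx σ ⟨h, -, rfl⟩
    exact hx _ ⟨h, rfl⟩
  rw [IntermediateField.relrank_eq_rank_of_le hle]
  refine rank_le fun s hs => ?_
  by_contra hlt
  push Not at hlt
  obtain ⟨c, hc0, hc1, hc2⟩ := artin χ H hc (s := s) (by rwa [Fintype.card_coe])
    (fun i => ((i.1 : IntermediateField.extendScalars hle) : QB)) (fun i => i.1.2)
  rw [Fintype.linearIndependent_iff] at hs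
  apply hc0
  funext i
  have h1 := hs (fun i => ⟨c i, hc1 i⟩) (by
    apply Subtype.ext
    exact (map_sum (IntermediateField.extendScalars hle).val _ _).trans hc2) i
  exact congrArg Subtype.val h1

/-- **An invariant basis for a subgroup of bounded index.** -/
theorem main (n : ℕ) : ∃ D : ℕ, ∀ d, 2 ≤ d → ∀ P : Fin n → MvPolynomial (Fin n) QB, Good d P →
    ∃ (H : Subgroup (grp P)) (b : Basis (Fin n) QB (Fin n → QB)), CovX (chi P) H D ∧
      ∀ h ∈ H, ∀ j, h.1.1 (b j) = b j := by
  classical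
  obtain ⟨M, hM1, hM⟩ := jordan_QB n
  obtain ⟨D, hD⟩ := invariants M hM1 n
  refine ⟨D, fun d hd P hP => ?_⟩
  obtain ⟨H, hc, -, hspan⟩ := hD (grp P) (Fin n → QB) (Fin n → QB) (chi P) _ _ (setup hd hP hM)
    (by rw [Module.finrank_fin_fun])
  let b := Basis.ofSpan hspan.ge
  have hb := Basis.ofSpan_subset hspan.ge
  refine ⟨H, b.reindex (b.indexEquiv (Pi.basisFun QB (Fin n))), hc, fun h hh j => ?_⟩
  rw [Basis.reindex_apply]
  exact hb ⟨_, rfl⟩ h hh

end Pool.Agent.U770.FM
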