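import Pool.Agent.U770.FM.Tr
import Pool.Agent.Y123.ST.Jor2

/-!
# Jordan's theorem: uniform powers commute
-/

set_option autoImplicit false
set_option linter.unusedSectionVars false

open Module

namespace Pool.Agent.U770.FM

theorem jordan_QB (n : ℕ) : ∃ M : ℕ, 1 ≤ M ∧ ∀ S : Set (End QB (Fin n → QB)), S.Finite → 1 ∈ S →
    (∀ x ∈ S, ∀ y ∈ S, x * y ∈ S) → (∀ x ∈ S, ∃ y ∈ S, x * y = 1) →
    ∀ x ∈ S, ∀ y ∈ S, x ^ M * y ^ M = y ^ M * x ^ M := by
  classical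
  obtain ⟨J, hJ⟩ := Pool.Agent.Y123.ST.Jor.jordan n
  refine ⟨J.factorial, Nat.factorial_pos _, fun S hS h1 hmul hinv x hx y hy => ?_⟩
  let ρ : End QB (Fin n → QB) →+* Matrix (Fin n) (Fin n) ℂ :=
    (emb.mapMatrix).comp (LinearMap.toMatrixAlgEquiv' (R := QB) (n := Fin n)).toAlgHom.toRingHom
  have hρ : Function.Injective ρ := by
    intro a b hab
    have h2 : Function.Injective (emb.mapMatrix (m := Fin n)) := by
      intro A B hAB
      ext i j
      exact emb.injective (congrFun (congrFun hAB i) j)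
    exact (LinearMap.toMatrixAlgEquiv' (R := QB) (n := Fin n)).injective (h2 hab)
  have hunit : ∀ x ∈ S, ∃ y ∈ S, ρ x * ρ y = 1 := by
    intro x hx
    obtain ⟨y, hy, hxy⟩ := hinv x hx
    exact ⟨y, hy, by rw [← map_mul, hxy, map_one]⟩
  obtain ⟨k, l, hk, hl, hc⟩ := hJ (ρ '' S) (hS.image _) ⟨1, h1, map_one ρ⟩
    (by
      rintro _ ⟨a, ha, rfl⟩ _ ⟨b, hb, rfl⟩
      exact ⟨a * b, hmul a ha b hb, map_mul ρ a b⟩)
    (by
      rintro _ ⟨a, ha, rfl⟩
      obtain ⟨b, -, hab⟩ := hunit a ha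
      have h2 := congrArg Matrix.det hab
      rw [Matrix.det_mul, Matrix.det_one] at h2
      exact IsUnit.of_mul_eq_one _ h2)
    (by
      rintro _ ⟨a, ha, rfl⟩
      obtain ⟨b, hb, hab⟩ := hunit a ha
      exact ⟨b, hb, (Matrix.inv_eq_right_inv hab).symm⟩)
    (ρ x) ⟨x, hx, rfl⟩ (ρ y) ⟨y, hy, rfl⟩
  have h2 : Commute (x ^ k) (y ^ l) := by
    apply hρ
    rw [map_mul, map_mul, map_pow, map_pow]
    exact hc
  obtain ⟨a, ha⟩ := Nat.dvd_factorial (by omega : 0 < k) hk.2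
  obtain ⟨b, hb⟩ := Nat.dvd_factorial (by omega : 0 < l) hl.2
  have h3 := h2.pow_pow a b
  rw [← pow_mul, ← pow_mul, ← ha, ← hb] at h3
  exact h3

end Pool.Agent.U770.FM
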