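import Pool.Agent.U770.FM.Split3

/-!
# Invariant vectors of subgroups of bounded index
-/

set_option autoImplicit false
set_option linter.unusedSectionVars false

open Module

namespace Pool.Agent.U770.FM

section
variable {G X W : Type} [Group G] [AddCommGroup W] [Module QB W] {χ : G →* GQ}
  {fx : G → X → Prop} {a : G → W → W} {M : ℕ}

/-- **Semilinear actions on lines.** -/
theorem line (hs : Setup χ fx a M) (hdim : finrank QB W = 1) :
    ∃ v : W, v ≠ 0 ∧ ∀ g : G, ∃ h : G, a h v = v ∧ χ h = χ g := by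
  classical
  obtain ⟨v, hv0, hv⟩ := finrank_eq_one_iff'.1 hdim
  have hex : ∀ g, ∃ c : QB, c • v = a g v := fun g => hv (a g v)
  choose c hc using hex
  have hc0 : ∀ g, c g ≠ 0 := by
    intro g h
    have h1 := hc g
    rw [h, zero_smul] at h1
    exact hs.ne_zero g hv0 h1.symm
  have hcm : ∀ g h, c (g * h) = χ g (c h) * c g := by
    intro g h
    have h1 := hc (g * h)
    rw [hs.mul, ← hc h, hs.semi, ← hc g, smul_smul] at h1
    exact smul_left_injective QB hv0 h1
  let ρ : χ.ker →* QBˣ :=
    { toFun := fun x => Units.mk0 (c x.1) (hc0 x.1)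
      map_one' := by
        apply Units.ext
        change c 1 = 1
        have h1 := hc 1
        rw [hs.one] at h1
        exact smul_left_injective QB hv0 (by simpa using h1)
      map_mul' := fun x y => by
        apply Units.ext
        change c (x.1 * y.1) = c x.1 * c y.1
        rw [hcm, show χ x.1 = 1 from x.2, mul_comm]
        rfl }
  have hfk := hs.ker
  have hfr : Finite ρ.range := Finite.of_surjective ρ.rangeRestrict ρ.rangeRestrict_surjective
  set m := Nat.card ρ.range with hm
  have hm0 : 0 < m := Nat.card_pos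
  have : NeZero m := ⟨hm0.ne'⟩
  have hroots : ρ.range = rootsOfUnity m QB := by
    apply Subgroup.eq_of_le_of_card_ge
    · intro z hz
      rw [mem_rootsOfUnity]
      have h1 : (⟨z, hz⟩ : ρ.range) ^ m = 1 := pow_card_eq_one'
      exact congrArg Subtype.val h1
    · rw [← hm]
      exact card_rootsOfUnity QB m
  have hkm : ∀ x : χ.ker, c x.1 ^ m = 1 := by
    intro x
    have h1 : ρ x ∈ rootsOfUnity m QB := hroots ▸ ⟨x, rfl⟩
    rw [mem_rootsOfUnity] at h1
    exact congrArg Units.val h1
  have hker : ∀ z : QB, z ^ m = 1 → ∃ x : χ.ker, c x.1 = z := by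
    intro z hz
    have hz0 : z ≠ 0 := by
      rintro rfl
      rw [zero_pow hm0.ne'] at hz
      exact zero_ne_one hz
    have h1 : Units.mk0 z hz0 ∈ ρ.range := by
      rw [hroots, mem_rootsOfUnity]
      exact Units.ext hz
    obtain ⟨x, hx⟩ := h1
    exact ⟨x, congrArg Units.val hx⟩
  have hdep : ∀ g g', χ g = χ g' → c g ^ m = c g' ^ m := by
    intro g g' h
    have h1 : χ (g'⁻¹ * g) = 1 := by rw [map_mul, map_inv, h, inv_mul_cancel]
    have h2 : g = g' * (g'⁻¹ * g) := by group
    rw [h2, hcm, mul_pow, ← map_pow, hkm ⟨_, h1⟩, map_one, one_mul]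
  let pick : GQ → G := fun σ => if h : ∃ g, χ g = σ then h.choose else 1
  have hpick : ∀ g : G, c (pick (χ g)) ^ m = c g ^ m := by
    intro g
    have hex : ∃ g', χ g' = χ g := ⟨g, rfl⟩
    have h1 : pick (χ g) = hex.choose := dif_pos hex
    rw [h1]
    exact hdep _ _ hex.choose_spec
  have hspan := descent (R := QB) χ.range (fun σ r => c (pick σ) ^ m * σ r)
    (by
      rintro _ ⟨g, rfl⟩ u v
      rw [map_add, mul_add])
    (by
      rintro _ ⟨g, rfl⟩ _ ⟨h, rfl⟩ r
      rw [← map_mul, hpick, hpick, hpick, hcm, mul_pow, map_mul, map_mul, map_pow]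
      change (χ g (c h)) ^ m * c g ^ m * χ g (χ h r) = _
      ring)
    (by
      rintro _ ⟨g, rfl⟩ b r
      rw [smul_eq_mul, smul_eq_mul, map_mul]
      ring)
    (by
      intro r
      obtain ⟨S, hS⟩ := hs.smooth v
      obtain ⟨Ω, h1, h2⟩ := hs.lift S
      have h3 : FiniteDimensional ℚ (IntermediateField.adjoin ℚ {r}) :=
        IntermediateField.adjoin.finiteDimensional (Algebra.IsIntegral.isIntegral r)
      refine ⟨Ω ⊔ IntermediateField.adjoin ℚ {r}, IntermediateField.finiteDimensional_sup _ _,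
        fun σ hσ => ?_⟩
      have h4 : σ ∈ Ω.fixingSubgroup := IntermediateField.fixingSubgroup_le le_sup_left hσ
      have h5 : σ r = r := by
        rw [IntermediateField.mem_fixingSubgroup_iff] at hσ
        exact hσ r ((le_sup_right : IntermediateField.adjoin ℚ {r} ≤ Ω ⊔ IntermediateField.adjoin ℚ {r})
          (IntermediateField.mem_adjoin_simple_self ℚ r))
      obtain ⟨g, rfl, h6⟩ := h2 σ h4
      refine ⟨⟨g, rfl⟩, ?_⟩
      rw [hpick, h5]
      have h7 : c g = 1 := by
        have h8 := hc g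
        rw [hS g h6] at h8
        exact smul_left_injective QB hv0 (by simpa using h8)
      rw [h7, one_pow, one_mul])
  obtain ⟨s, hs0, hsi⟩ : ∃ s : QB, s ≠ 0 ∧ ∀ g, c g ^ m * χ g s = s := by
    by_contra hno
    push Not at hno
    have h1 : {r : QB | ∀ σ ∈ χ.range, c (pick σ) ^ m * σ r = r} ⊆ {0} := by
      intro r hr
      by_contra h2
      obtain ⟨g, hg⟩ := hno r h2
      apply hg
      have h3 := hr (χ g) ⟨g, rfl⟩
      rwa [hpick] at h3
    have h2 := Submodule.span_mono (R := QB) h1
    rw [hspan, Submodule.span_singleton_eq_bot.2 rfl] at h2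
    exact top_ne_bot (le_bot_iff.1 h2)
  obtain ⟨t, ht⟩ := IsAlgClosed.exists_pow_nat_eq s hm0
  have ht0 : t ≠ 0 := by
    rintro rfl
    rw [zero_pow hm0.ne'] at ht
    exact hs0 ht.symm
  refine ⟨t • v, smul_ne_zero ht0 hv0, fun g => ?_⟩
  have hz : (χ g t * c g / t) ^ m = 1 := by
    rw [div_pow, mul_pow, ← map_pow, ht, mul_comm (χ g s), hsi, div_self hs0]
  obtain ⟨x, hx⟩ := hker _ hz
  set z := χ g t * c g / t with hzd
  have e1 : a g (t • v) = z • (t • v) := by
    rw [hs.semi, ← hc g, smul_smul, smul_smul, hzd, div_mul_cancel₀ _ ht0]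
  have e2 : a x.1 (t • v) = z • (t • v) := by
    rw [hs.semi, show χ x.1 = 1 from x.2, ← hc x.1, hx, smul_smul, smul_smul, mul_comm]
    rfl
  refine ⟨x.1⁻¹ * g, ?_, ?_⟩
  · rw [hs.mul, e1, ← e2, hs.inv_left]
  · rw [map_mul, map_inv, show χ x.1 = 1 from x.2, inv_one, one_mul]

/-- the restriction to a stable subspace -/
theorem Setup.sub (hs : Setup χ fx a M) (V : Submodule QB W) (hV : ∀ g, ∀ w ∈ V, a g w ∈ V) :
    Setup χ fx (fun g (w : V) => (⟨a g w.1, hV g w.1 w.2⟩ : V)) M where
  one := fun w => Subtype.ext (hs.one w.1)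
  mul := fun g h w => Subtype.ext (hs.mul g h w.1)
  add := fun g v w => Subtype.ext (hs.add g v.1 w.1)
  semi := fun g c w => Subtype.ext (hs.semi g c w.1)
  lift := hs.lift
  ker := hs.ker
  jor := hs.jor
  smooth := fun w => by
    obtain ⟨S, hS⟩ := hs.smooth w.1
    exact ⟨S, fun g hg => Subtype.ext (hS g hg)⟩

/-- the stabilizer of a vector -/
def stabV (hs : Setup χ fx a M) (v : W) : Subgroup G where
  carrier := {g | a g v = v}
  one_mem' := hs.one v
  mul_mem' := fun {g h} hg hh => by
    change a (g * h) v = v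
    rw [hs.mul, show a h v = v from hh]
    exact hg
  inv_mem' := fun {g} hg => by
    change a g⁻¹ v = v
    nth_rewrite 1 [← show a g v = v from hg]
    exact hs.inv_left g v

end

/-- **Invariant bases.** -/
theorem invariants (M : ℕ) (hM : 1 ≤ M) : ∀ m : ℕ, ∃ D : ℕ, ∀ (G X W : Type) [Group G]
    [AddCommGroup W] [Module QB W] [FiniteDimensional QB W] (χ : G →* GQ)
    (fx : G → X → Prop) (a : G → W → W), Setup χ fx a M → finrank QB W ≤ m →
    ∃ H : Subgroup G, CovX χ H D ∧ Opn fx H ∧
      Submodule.span QB {w : W | ∀ h ∈ H, a h w = w} = ⊤ := by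
  classical
  intro m
  induction m with
  | zero =>
    refine ⟨1, fun G X W _ _ _ _ χ fx a hs hdim => ⟨⊤, ⟨{1}, by simp, fun g => ?_⟩, ⟨∅, fun _ _ => trivial⟩, ?_⟩⟩
    · exact ⟨1, Finset.mem_singleton_self 1, g, trivial, by rw [map_one, one_mul]⟩
    · have h1 : Subsingleton W := Module.finrank_zero_iff.1 (Nat.le_zero.1 hdim)
      exact Subsingleton.elim _ _
  | succ m ih =>
    obtain ⟨D, hD⟩ := ih
    set B : ℕ := ∑ j ∈ Finset.range (m + 2), (bnd M (j * j) + 1) * j with hB
    refine ⟨B * (D * D) + 1, fun G X W _ _ _ _ χ fx a hs hdim => ?_⟩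
    rcases Nat.lt_or_ge (finrank QB W) 2 with h2 | h2
    · rcases Nat.lt_or_ge (finrank QB W) 1 with h1 | h1
      · refine ⟨⊤, ⟨{1}, by simp, fun g => ?_⟩, ⟨∅, fun _ _ => trivial⟩, ?_⟩
        · exact ⟨1, Finset.mem_singleton_self 1, g, trivial, by rw [map_one, one_mul]⟩
        · have h4 : finrank QB W = 0 := by omega
          have h3 : Subsingleton W := Module.finrank_zero_iff.1 h4
          exact Subsingleton.elim _ _
      · have hone : finrank QB W = 1 := by omega
        obtain ⟨v, hv0, hv⟩ := line hs hone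
        refine ⟨stabV hs v, ⟨{1}, by simp, fun g => ?_⟩, ?_, ?_⟩
        · obtain ⟨h, h3, h4⟩ := hv g
          exact ⟨1, Finset.mem_singleton_self 1, h, h3, by rw [map_one, one_mul, h4]⟩
        · obtain ⟨S, hS⟩ := hs.smooth v
          exact ⟨S, fun g hg => hS g hg⟩
        · have h3 : Submodule.span QB {v} = ⊤ := by
            rw [eq_top_iff]
            intro w _
            obtain ⟨c, hc⟩ := (finrank_eq_one_iff_of_nonzero' v hv0).1 hone w
            rw [← hc]
            exact Submodule.smul_mem _ _ (Submodule.mem_span_singleton_self v)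
          rw [eq_top_iff, ← h3]
          refine Submodule.span_mono ?_
          rintro w rfl h hh
          exact hh
    · obtain ⟨H0, hc0, ho0, V', V'', hcompl, hV', hV'', hst', hst''⟩ := split hs hM h2
      have hlt : ∀ V1 V2 : Submodule QB W, IsCompl V1 V2 → V2 ≠ ⊥ → finrank QB V1 ≤ m := by
        intro V1 V2 h3 h4
        have h5 := Submodule.finrank_add_eq_of_isCompl h3
        have h6 : 0 < finrank QB V2 := by
          rw [Nat.pos_iff_ne_zero]
          intro h7
          exact h4 (Submodule.finrank_eq_zero.1 h7)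
        omega
      have hs0 := hs.restrict ho0
      have hs1 := hs0.sub V' (fun g w hw => hst' g.1 g.2 w hw)
      obtain ⟨H1, hc1, ho1, hsp1⟩ := hD H0 X V' _ _ _ hs1 (hlt V' V'' hcompl hV'')
      have hs2 := (hs0.restrict ho1).sub V'' (fun g w hw => hst'' g.1.1 g.1.2 w hw)
      obtain ⟨H2, hc2, ho2, hsp2⟩ := hD H1 X V'' _ _ _ hs2 (hlt V'' V' hcompl.symm hV')
      refine ⟨((H2.map H1.subtype).map H0.subtype), ?_, ?_, ?_⟩
      · have h3 := hc0.trans (hc1.trans hc2)
        refine h3.mono ?_
        refine (Nat.mul_le_mul_right (D * D) ?_).trans (Nat.le_succ _)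
        rw [hB, Module.finrank_linearMap]
        exact Finset.single_le_sum (f := fun j => (bnd M (j * j) + 1) * j) (fun _ _ => Nat.zero_le _)
          (Finset.mem_range.2 (by omega))
      · exact ho0.trans (ho1.trans ho2)
      · rw [eq_top_iff, ← hcompl.sup_eq_top]
        refine sup_le ?_ ?_
        · intro w hw
          have h3 : (⟨w, hw⟩ : V') ∈ Submodule.span QB {w : V' | ∀ h ∈ H1, (⟨a h.1 w.1, hst' h.1 h.2 w.1 w.2⟩ : V') = w} := by
            rw [hsp1]
            exact Submodule.mem_top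
          have h4 := Submodule.mem_map_of_mem (f := V'.subtype) h3
          rw [Submodule.map_span] at h4
          refine Submodule.span_mono ?_ h4
          rintro _ ⟨u, hu, rfl⟩
          rintro _ ⟨_, ⟨g, hg, rfl⟩, rfl⟩
          exact congrArg Subtype.val (hu g.1 g.2)
        · intro w hw
          have h3 : (⟨w, hw⟩ : V'') ∈ Submodule.span QB {w : V'' | ∀ h ∈ H2, (⟨a h.1.1 w.1, hst'' h.1.1 h.1.2 w.1 w.2⟩ : V'') = w} := by
            rw [hsp2]
            exact Submodule.mem_top
          have h4 := Submodule.mem_map_of_mem (f := V''.subtype) h3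
          rw [Submodule.map_span] at h4
          refine Submodule.span_mono ?_ h4
          rintro _ ⟨u, hu, rfl⟩
          rintro _ ⟨_, ⟨g, hg, rfl⟩, rfl⟩
          exact congrArg Subtype.val (hu g hg)

end Pool.Agent.U770.FM
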