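import Pool.Agent.U770.FM.Line
import Pool.Agent.U770.FM.Aut
import Pool.Agent.U770.FM.Jor

/-!
# The group of semilinear maps which commute with a homogeneous map
-/

set_option autoImplicit false
set_option linter.unusedSectionVars false

open Module MvPolynomial

namespace Pool.Agent.U770.FM

variable {n : ℕ}

/-- coordinatewise action -/
noncomputable def co (σ : GQ) : Equiv.Perm (Fin n → QB) where
  toFun := fun v i => σ (v i)
  invFun := fun v i => σ.symm (v i)
  left_inv := fun v => by funext i; exact σ.symm_apply_apply (v i)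
  right_inv := fun v => by funext i; exact σ.apply_symm_apply (v i)

theorem co_add (σ : GQ) (v w : Fin n → QB) : co σ (v + w) = co σ v + co σ w := by
  funext i
  exact map_add σ (v i) (w i)

@[simp] theorem co_apply (σ : GQ) (v : Fin n → QB) (i : Fin n) : co σ v i = σ (v i) := rfl

theorem co_smul (σ : GQ) (c : QB) (v : Fin n → QB) : co σ (c • v) = σ c • co σ v := by
  funext i
  rw [co_apply, Pi.smul_apply, Pi.smul_apply, co_apply, smul_eq_mul, smul_eq_mul, map_mul]

/-- the conjugate tuple -/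
noncomputable def mp (σ : GQ) (P : Fin n → MvPolynomial (Fin n) QB) :
    Fin n → MvPolynomial (Fin n) QB :=
  fun i => MvPolynomial.map ((σ : QB ≃ₐ[ℚ] QB) : QB →+* QB) (P i)

theorem co_ev (σ : GQ) (P : Fin n → MvPolynomial (Fin n) QB) (v : Fin n → QB) :
    co σ (ev P v) = ev (mp σ P) (co σ v) := by
  funext i
  change σ (eval v (P i)) = eval (fun j => σ (v j)) (MvPolynomial.map _ (P i))
  rw [eval_map]
  exact eval₂_comp_left ((σ : QB ≃ₐ[ℚ] QB) : QB →+* QB) (RingHom.id QB) v (P i)

theorem ev_inj {P Q : Fin n → MvPolynomial (Fin n) QB} (h : ∀ v, ev P v = ev Q v) : P = Q := by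
  funext i
  exact MvPolynomial.funext fun v => congrFun (h v) i

/-- the group of semilinear maps which commute with the tuple -/
def grp (P : Fin n → MvPolynomial (Fin n) QB) : Subgroup (Equiv.Perm (Fin n → QB) × GQ) where
  carrier := {p | (∀ v w, p.1 (v + w) = p.1 v + p.1 w) ∧
    (∀ (c : QB) (v : Fin n → QB), p.1 (c • v) = p.2 c • p.1 v) ∧
    ∀ v, p.1 (ev P v) = ev P (p.1 v)}
  one_mem' := ⟨fun _ _ => rfl, fun _ _ => rfl, fun _ => rfl⟩
  mul_mem' := by
    rintro p q ⟨h0, h1, h2⟩ ⟨h3', h3, h4⟩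
    refine ⟨fun v w => ?_, fun c v => ?_, fun v => ?_⟩
    · change p.1 (q.1 (v + w)) = p.1 (q.1 v) + p.1 (q.1 w)
      rw [h3', h0]
    · change p.1 (q.1 (c • v)) = p.2 (q.2 c) • p.1 (q.1 v)
      rw [h3, h1]
    · change p.1 (q.1 (ev P v)) = ev P (p.1 (q.1 v))
      rw [h4, h2]
  inv_mem' := by
    rintro p ⟨h0, h1, h2⟩
    have e1 : ∀ v, p.1 (p.1⁻¹ v) = v := fun v => p.1.apply_symm_apply v
    have e2 : ∀ c, p.2 (p.2⁻¹ c) = c := fun c => p.2.apply_symm_apply c
    refine ⟨fun v w => ?_, fun c v => ?_, fun v => ?_⟩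
    · change p.1⁻¹ (v + w) = p.1⁻¹ v + p.1⁻¹ w
      apply p.1.injective
      rw [e1, h0, e1, e1]
    · change p.1⁻¹ (c • v) = p.2⁻¹ c • p.1⁻¹ v
      apply p.1.injective
      rw [e1, h1, e1, e2]
    · change p.1⁻¹ (ev P v) = ev P (p.1⁻¹ v)
      apply p.1.injective
      rw [e1, h2, e1]

/-- projection to the Galois group -/
noncomputable def chi (P : Fin n → MvPolynomial (Fin n) QB) : grp P →* GQ :=
  (MonoidHom.snd _ _).comp (grp P).subtype

/-- the finitely many coefficients generate a number field -/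
theorem coeff_field (S : Finset (Fin n → QB)) (P : Fin n → MvPolynomial (Fin n) QB) :
    ∃ Ω : IntermediateField ℚ QB, FiniteDimensional ℚ Ω ∧
    ∀ σ ∈ Ω.fixingSubgroup, mp σ P = P ∧ ∀ x ∈ S, co σ x = x := by
  classical
  let A : Finset QB := (S.biUnion fun x => Finset.univ.image x) ∪
    (Finset.univ.biUnion fun i => (P i).support.image fun m => coeff m (P i))
  refine ⟨IntermediateField.adjoin ℚ (A : Set QB), ?_, fun σ hσ => ?_⟩
  · exact IntermediateField.finiteDimensional_adjoin fun x _ => Algebra.IsIntegral.isIntegral x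
  · rw [IntermediateField.mem_fixingSubgroup_iff] at hσ
    have hA : ∀ x ∈ A, σ x = x := fun x hx => hσ x (IntermediateField.subset_adjoin ℚ _ hx)
    refine ⟨?_, fun x hx => ?_⟩
    · funext i
      apply MvPolynomial.ext
      intro m
      change coeff m (MvPolynomial.map _ (P i)) = _
      rw [coeff_map]
      by_cases hm : coeff m (P i) = 0
      · rw [hm, map_zero]
      · refine hA _ (Finset.mem_union_right _ (Finset.mem_biUnion.2 ⟨i, Finset.mem_univ _, ?_⟩))
        exact Finset.mem_image.2 ⟨m, mem_support_iff.2 hm, rfl⟩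
    · funext i
      exact hA _ (Finset.mem_union_left _ (Finset.mem_biUnion.2 ⟨x, hx,
        Finset.mem_image.2 ⟨i, Finset.mem_univ _, rfl⟩⟩))

/-- elements of the kernel as linear maps -/
noncomputable def lin0 {P : Fin n → MvPolynomial (Fin n) QB} (x : grp P) (hx : chi P x = 1) :
    End QB (Fin n → QB) where
  toFun := x.1.1
  map_add' := x.2.1
  map_smul' := fun c v => by
    have h1 := x.2.2.1 c v
    have h2 : x.1.2 = 1 := hx
    rw [h2] at h1
    exact h1

theorem setup {d : ℕ} (hd : 2 ≤ d) {P : Fin n → MvPolynomial (Fin n) QB} (hP : Good d P) {M : ℕ}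
    (hM : ∀ S : Set (End QB (Fin n → QB)), S.Finite → 1 ∈ S →
    (∀ x ∈ S, ∀ y ∈ S, x * y ∈ S) → (∀ x ∈ S, ∃ y ∈ S, x * y = 1) →
    ∀ x ∈ S, ∀ y ∈ S, x ^ M * y ^ M = y ^ M * x ^ M) :
    Setup (chi P) (fun g (v : Fin n → QB) => g.1.1 v = v) (fun g (v : Fin n → QB) => g.1.1 v) M where
  one := fun _ => rfl
  mul := fun _ _ _ => rfl
  add := fun g v w => g.2.1 v w
  semi := fun g c w => g.2.2.1 c w
  lift := fun S => by
    obtain ⟨Ω, h1, h2⟩ := coeff_field S P
    refine ⟨Ω, h1, fun σ hσ => ?_⟩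
    obtain ⟨h3, h4⟩ := h2 σ hσ
    refine ⟨⟨(co σ, σ), fun v w => co_add σ v w, fun c v => co_smul σ c v, fun v => ?_⟩, rfl, h4⟩
    have h5 := co_ev σ P v
    rw [h3] at h5
    exact h5
  ker := by
    have hfin := aut_finite hd hP
    have : Finite {T : End QB (Fin n → QB) | Function.Injective T ∧ ∀ v, T (ev P v) = ev P (T v)} := hfin
    refine Finite.of_injective (fun x : (chi P).ker =>
      (⟨lin0 x.1 x.2, x.1.1.1.injective, fun v => x.1.2.2.2 v⟩ :
        {T : End QB (Fin n → QB) | Function.Injective T ∧ ∀ v, T (ev P v) = ev P (T v)})) ?_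
    intro x y hxy
    have h1 : ∀ v, x.1.1.1 v = y.1.1.1 v := fun v =>
      congrArg (fun T : {T : End QB (Fin n → QB) | Function.Injective T ∧
        ∀ v, T (ev P v) = ev P (T v)} => T.1 v) hxy
    apply Subtype.ext
    apply Subtype.ext
    refine Prod.ext (Equiv.ext h1) ?_
    have h2 : x.1.1.2 = 1 := x.2
    have h3 : y.1.1.2 = 1 := y.2
    rw [h2, h3]
  jor := fun x y hx hy => by
    have hfin := aut_finite hd hP
    have key := hM _ hfin ⟨Function.injective_id, fun v => rfl⟩
      (by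
        rintro x ⟨hx1, hx2⟩ y ⟨hy1, hy2⟩
        refine ⟨hx1.comp hy1, fun v => ?_⟩
        rw [Module.End.mul_apply, Module.End.mul_apply, hy2, hx2])
      (by
        rintro x ⟨hx1, hx2⟩
        let e := LinearEquiv.ofInjectiveEndo x hx1
        have he : ∀ v, x (e.symm v) = v := fun v => e.apply_symm_apply v
        refine ⟨e.symm.toLinearMap, ⟨e.symm.injective, fun v => ?_⟩, LinearMap.ext he⟩
        apply hx1
        rw [hx2]
        change x (e.symm (ev P v)) = ev P (x (e.symm v))
        rw [he, he])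
      (lin0 x hx) ⟨x.1.1.injective, fun v => x.2.2.2 v⟩ (lin0 y hy) ⟨y.1.1.injective, fun v => y.2.2.2 v⟩
    have hp : ∀ (z : grp P) (hz : chi P z = 1) (m : ℕ) (v : Fin n → QB),
        (z ^ m).1.1 v = ((lin0 z hz) ^ m) v := by
      intro z hz m
      induction m with
      | zero => intro v; rfl
      | succ m ih =>
        intro v
        rw [pow_succ, pow_succ, Module.End.mul_apply, ← ih]
        rfl
    apply Subtype.ext
    refine Prod.ext (Equiv.ext fun v => ?_) ?_
    · change (x ^ M).1.1 ((y ^ M).1.1 v) = (y ^ M).1.1 ((x ^ M).1.1 v)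
      rw [hp x hx, hp y hy, hp y hy, hp x hx]
      exact congrArg (fun T : End QB (Fin n → QB) => T v) key
    · change chi P (x ^ M * y ^ M) = chi P (y ^ M * x ^ M)
      rw [map_mul, map_mul, map_pow, map_pow, hx, hy]
  smooth := fun w => ⟨{w}, fun g hg => hg w (Finset.mem_singleton_self w)⟩

end Pool.Agent.U770.FM
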