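import Pool.Agent.U770.FM.Tr

/-!
# Groups of semilinear maps and families of subspaces which are permuted
-/

set_option autoImplicit false
set_option linter.unusedSectionVars false

open Module

namespace Pool.Agent.U770.FM

/-- A group `G` with a map `χ` to the Galois group acts semilinearly on `W`; `fx g x` says that `g`
fixes the point `x` of an auxiliary set. -/
structure Setup {G X W : Type} [Group G] [AddCommGroup W] [Module QB W] (χ : G →* GQ)
    (fx : G → X → Prop) (a : G → W → W) (M : ℕ) : Prop where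
  one : ∀ w, a 1 w = w
  mul : ∀ g h w, a (g * h) w = a g (a h w)
  add : ∀ g v w, a g (v + w) = a g v + a g w
  semi : ∀ g (c : QB) w, a g (c • w) = χ g c • a g w
  lift : ∀ S : Finset X, ∃ Ω : IntermediateField ℚ QB, FiniteDimensional ℚ Ω ∧
    ∀ σ ∈ Ω.fixingSubgroup, ∃ g : G, χ g = σ ∧ ∀ x ∈ S, fx g x
  ker : Finite χ.ker
  jor : ∀ x y : G, χ x = 1 → χ y = 1 → x ^ M * y ^ M = y ^ M * x ^ M
  smooth : ∀ w : W, ∃ S : Finset X, ∀ g : G, (∀ x ∈ S, fx g x) → a g w = w

/-- the subgroup contains the elements which fix the points of a finite set -/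
def Opn {G X : Type} [Group G] (fx : G → X → Prop) (H : Subgroup G) : Prop :=
  ∃ S : Finset X, ∀ g : G, (∀ x ∈ S, fx g x) → g ∈ H

/-- `D` cosets cover the group -/
def Cov {G : Type} [Group G] (H : Subgroup G) (D : ℕ) : Prop :=
  ∃ T : Finset G, T.card ≤ D ∧ ∀ g : G, ∃ t ∈ T, ∃ h ∈ H, g = t * h

/-- stable subspaces -/
def Stab {G W : Type} [Group G] [AddCommGroup W] [Module QB W] (a : G → W → W) (H : Subgroup G)
    (V : Submodule QB W) : Prop := ∀ h ∈ H, ∀ w ∈ V, a h w ∈ V

section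
variable {G X W : Type} [Group G] [AddCommGroup W] [Module QB W] {χ : G →* GQ}
  {fx : G → X → Prop} {a : G → W → W} {M : ℕ}

namespace Setup
variable (hs : Setup χ fx a M)
include hs

theorem inv_left (g : G) (w : W) : a g⁻¹ (a g w) = w := by
  rw [← hs.mul, inv_mul_cancel, hs.one]

theorem inv_right (g : G) (w : W) : a g (a g⁻¹ w) = w := by
  rw [← hs.mul, mul_inv_cancel, hs.one]

theorem zero (g : G) : a g 0 = 0 := by
  have h := hs.semi g 0 0
  rwa [zero_smul, map_zero, zero_smul] at h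

theorem inj (g : G) {v w : W} (h : a g v = a g w) : v = w := by
  rw [← hs.inv_left g v, h, hs.inv_left]

theorem ne_zero (g : G) {w : W} (h : w ≠ 0) : a g w ≠ 0 := fun h1 =>
  h (hs.inj g (by rw [h1, hs.zero]))

theorem sum (g : G) {ι : Type} (s : Finset ι) (f : ι → W) :
    a g (∑ i ∈ s, f i) = ∑ i ∈ s, a g (f i) := by
  classical
  induction s using Finset.induction_on with
  | empty => simp [hs.zero]
  | insert i s hi ih => rw [Finset.sum_insert hi, Finset.sum_insert hi, hs.add, ih]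

end Setup

/-- the preimage of a subspace -/
def pre (hs : Setup χ fx a M) (g : G) (V : Submodule QB W) : Submodule QB W where
  carrier := {w | a g w ∈ V}
  add_mem' := fun {v w} hv hw => by
    change a g (v + w) ∈ V
    rw [hs.add]
    exact V.add_mem hv hw
  zero_mem' := by
    change a g 0 ∈ V
    rw [hs.zero]
    exact V.zero_mem
  smul_mem' := fun c w hw => by
    change a g (c • w) ∈ V
    rw [hs.semi]
    exact V.smul_mem _ hw

/-- finite sets of vectors are fixed by small elements -/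
theorem smooth_finset (hs : Setup χ fx a M) (F : Finset W) :
    ∃ S : Finset X, ∀ g : G, (∀ x ∈ S, fx g x) → ∀ w ∈ F, a g w = w := by
  classical
  choose S hS using hs.smooth
  refine ⟨F.biUnion S, fun g hg w hw => hS w g fun x hx => hg x ?_⟩
  exact Finset.mem_biUnion.2 ⟨w, hw, hx⟩

/-- small elements stabilize a given subspace -/
theorem stab_small (hs : Setup χ fx a M) [FiniteDimensional QB W] (V : Submodule QB W) :
    ∃ S : Finset X, ∀ g : G, (∀ x ∈ S, fx g x) →
      (∀ w ∈ V, a g w ∈ V) ∧ (∀ w ∈ V, a g⁻¹ w ∈ V) := by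
  classical
  obtain ⟨F, hF⟩ := (IsNoetherian.noetherian V : V.FG)
  obtain ⟨S, hS⟩ := smooth_finset hs F
  refine ⟨S, fun g hg => ?_⟩
  have key : ∀ g : G, (∀ w ∈ F, a g w = w) → ∀ w ∈ V, a g w ∈ V := by
    intro g hg w hw
    have h1 : V ≤ pre hs g V := by
      nth_rewrite 1 [← hF]
      refine Submodule.span_le.2 fun w hw => ?_
      change a g w ∈ V
      rw [hg w hw, ← hF]
      exact Submodule.subset_span hw
    exact h1 hw
  refine ⟨key g (hS g hg), key g⁻¹ fun w hw => ?_⟩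
  nth_rewrite 1 [← hS g hg w hw]
  exact hs.inv_left g w

/-- **Permuted families of subspaces.** -/
theorem permuted (hs : Setup χ fx a M) [FiniteDimensional QB W] {ι : Type}
    (E : ι → Submodule QB W) (hind : iSupIndep E) (htop : ⨆ i, E i = ⊤)
    (hperm : ∀ g i, ∃ j, ∀ w ∈ E i, a g w ∈ E j) (i0 : ι) (h0 : E i0 ≠ ⊥) (h1 : E i0 ≠ ⊤) :
    ∃ H : Subgroup G, Cov H (finrank QB W) ∧ Opn fx H ∧ ∃ V' V'' : Submodule QB W,
      IsCompl V' V'' ∧ V' ≠ ⊥ ∧ V'' ≠ ⊥ ∧ Stab a H V' ∧ Stab a H V'' := by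
  classical
  have hdis : ∀ i j : ι, i ≠ j → ∀ w, w ∈ E i → w ∈ E j → w = 0 := by
    intro i j hij w hi hj
    have h2 := (hind i)
    rw [Submodule.disjoint_def] at h2
    exact h2 w hi ((le_iSup₂ (f := fun (l : ι) (_ : l ≠ i) => E l) j hij.symm) hj)
  obtain ⟨w0, hw0, hw0n⟩ := (Submodule.ne_bot_iff _).1 h0
  have K : ∀ (g g' : G) (j : ι), (∀ w ∈ E i0, a g w ∈ E j) → (∀ w ∈ E i0, a g' w ∈ E j) →
      ∀ w ∈ E i0, a (g'⁻¹ * g) w ∈ E i0 := by
    intro g g' j hg hg' w hw
    obtain ⟨l, hl⟩ := hperm g'⁻¹ j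
    have h2 : l = i0 := by
      by_contra hne
      have h3 := hl _ (hg' w0 hw0)
      rw [hs.inv_left] at h3
      exact hw0n (hdis l i0 hne w0 h3 hw0)
    rw [hs.mul, ← h2]
    exact hl _ (hg w hw)
  let H : Subgroup G :=
    { carrier := {g | (∀ w ∈ E i0, a g w ∈ E i0) ∧ (∀ w ∈ E i0, a g⁻¹ w ∈ E i0)}
      one_mem' := by
        refine ⟨fun w hw => ?_, fun w hw => ?_⟩
        · rw [hs.one]; exact hw
        · rw [inv_one, hs.one]; exact hw
      mul_mem' := by
        rintro g h ⟨hg1, hg2⟩ ⟨hh1, hh2⟩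
        refine ⟨fun w hw => ?_, fun w hw => ?_⟩
        · rw [hs.mul]; exact hg1 _ (hh1 _ hw)
        · rw [mul_inv_rev, hs.mul]; exact hh2 _ (hg2 _ hw)
      inv_mem' := by
        rintro g ⟨hg1, hg2⟩
        refine ⟨hg2, fun w hw => ?_⟩
        rw [inv_inv]
        exact hg1 w hw }
  refine ⟨H, ?_, ?_, E i0, ⨆ (j : ι) (_ : j ≠ i0), E j, ?_, h0, ?_, ?_, ?_⟩
  · -- the cosets
    have hfi : Finite {i // E i ≠ ⊥} := WellFoundedGT.finite_ne_bot_of_iSupIndep hind
    have : Fintype {i // E i ≠ ⊥} := Fintype.ofFinite _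
    let c : {i // E i ≠ ⊥} → G := fun i =>
      if h : ∃ g : G, ∀ w ∈ E i0, a g w ∈ E i.1 then h.choose else 1
    refine ⟨Finset.univ.image c, ?_, fun g => ?_⟩
    · refine Finset.card_image_le.trans ?_
      rw [Finset.card_univ]
      exact hind.subtype_ne_bot_le_finrank
    · obtain ⟨j, hj⟩ := hperm g i0
      have hjb : E j ≠ ⊥ := by
        intro hb
        have h2 := hj w0 hw0
        rw [hb] at h2
        exact hs.ne_zero g hw0n ((Submodule.mem_bot _).1 h2)
      have hex : ∃ g : G, ∀ w ∈ E i0, a g w ∈ E j := ⟨g, hj⟩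
      have hc : c ⟨j, hjb⟩ = hex.choose := dif_pos hex
      have hcs : ∀ w ∈ E i0, a (c ⟨j, hjb⟩) w ∈ E j := by
        rw [hc]
        exact hex.choose_spec
      refine ⟨c ⟨j, hjb⟩, Finset.mem_image_of_mem _ (Finset.mem_univ _), (c ⟨j, hjb⟩)⁻¹ * g,
        ⟨K g _ j hj hcs, ?_⟩, by group⟩
      rw [mul_inv_rev, inv_inv]
      exact K _ g j hcs hj
  · obtain ⟨S, hS⟩ := stab_small hs (E i0)
    exact ⟨S, fun g hg => hS g hg⟩
  · refine ⟨hind i0, ?_⟩
    rw [codisjoint_iff, eq_top_iff, ← htop]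
    refine iSup_le fun j => ?_
    by_cases hj : j = i0
    · rw [hj]; exact le_sup_left
    · exact (le_iSup₂ (f := fun (l : ι) (_ : l ≠ i0) => E l) j hj).trans le_sup_right
  · intro hb
    apply h1
    rw [eq_top_iff, ← htop]
    refine iSup_le fun j => ?_
    by_cases hj : j = i0
    · rw [hj]
    · refine (le_iSup₂ (f := fun (l : ι) (_ : l ≠ i0) => E l) j hj).trans ?_
      rw [hb]
      exact bot_le
  · intro g hg w hw
    exact hg.1 w hw
  · intro g hg w hw
    have h2 : (⨆ (j : ι) (_ : j ≠ i0), E j) ≤ pre hs g (⨆ (j : ι) (_ : j ≠ i0), E j) := by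
      refine iSup₂_le fun j hj v hv => ?_
      change a g v ∈ (⨆ (j : ι) (_ : j ≠ i0), E j)
      obtain ⟨l, hl⟩ := hperm g j
      by_cases h3 : l = i0
      · have h4 := hl v hv
        rw [h3] at h4
        have h5 := hg.2 _ h4
        rw [hs.inv_left] at h5
        rw [hdis j i0 hj v hv h5, hs.zero]
        exact Submodule.zero_mem _
      · exact (le_iSup₂ (f := fun (l : ι) (_ : l ≠ i0) => E l) l h3) (hl v hv)
    exact h2 hw

end

end Pool.Agent.U770.FM
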