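import Pool.Agent.U770.FM.Perm

/-!
# Splitting a space into two subspaces which are stable under a subgroup of bounded index
-/

set_option autoImplicit false
set_option linter.unusedSectionVars false

open Module

namespace Pool.Agent.U770.FM

section
variable {G X W : Type} [Group G] [AddCommGroup W] [Module QB W] {χ : G →* GQ}
  {fx : G → X → Prop} {a : G → W → W} {M : ℕ}

/-- the restriction to an open subgroup -/
theorem Setup.restrict (hs : Setup χ fx a M) {H : Subgroup G} (hH : Opn fx H) :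
    Setup (χ.comp H.subtype) (fun (h : H) (x : X) => fx h x) (fun (h : H) (w : W) => a h w) M where
  one := hs.one
  mul := fun g h w => hs.mul g h w
  add := fun g v w => hs.add g v w
  semi := fun g c w => hs.semi g c w
  lift := by
    classical
    intro S
    obtain ⟨S', hS'⟩ := hH
    obtain ⟨Ω, h1, h2⟩ := hs.lift (S ∪ S')
    refine ⟨Ω, h1, fun σ hσ => ?_⟩
    obtain ⟨g, h3, h4⟩ := h2 σ hσ
    exact ⟨⟨g, hS' g fun x hx => h4 x (Finset.mem_union_right _ hx)⟩, h3,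
      fun x hx => h4 x (Finset.mem_union_left _ hx)⟩
  ker := by
    have := hs.ker
    refine Finite.of_injective (fun x : (χ.comp H.subtype).ker => (⟨x.1.1, x.2⟩ : χ.ker)) ?_
    intro x y hxy
    exact Subtype.ext (Subtype.ext (congrArg (fun z : χ.ker => z.1) hxy))
  jor := fun x y hx hy => Subtype.ext (hs.jor x.1 y.1 hx hy)
  smooth := fun w => by
    obtain ⟨S, hS⟩ := hs.smooth w
    exact ⟨S, fun g hg => hS g hg⟩

theorem Opn.trans {H : Subgroup G} (hH : Opn fx H) {H' : Subgroup H}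
    (hH' : Opn (fun (h : H) (x : X) => fx h x) H') : Opn fx (H'.map H.subtype) := by
  classical
  obtain ⟨S, hS⟩ := hH
  obtain ⟨S', hS'⟩ := hH'
  refine ⟨S ∪ S', fun g hg => ?_⟩
  have h1 : g ∈ H := hS g fun x hx => hg x (Finset.mem_union_left _ hx)
  exact ⟨⟨g, h1⟩, hS' ⟨g, h1⟩ fun x hx => hg x (Finset.mem_union_right _ hx), rfl⟩

/-- the images in the Galois group of `D` cosets cover -/
def CovX (χ : G →* GQ) (H : Subgroup G) (D : ℕ) : Prop :=
  ∃ T : Finset G, T.card ≤ D ∧ ∀ g : G, ∃ t ∈ T, ∃ h ∈ H, χ g = χ t * χ h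

theorem Cov.covX {H : Subgroup G} {D : ℕ} (h : Cov H D) : CovX χ H D := by
  obtain ⟨T, h1, h2⟩ := h
  refine ⟨T, h1, fun g => ?_⟩
  obtain ⟨t, ht, h, hh, e⟩ := h2 g
  exact ⟨t, ht, h, hh, by rw [e, map_mul]⟩

theorem CovX.mono {H : Subgroup G} {D D' : ℕ} (h : CovX χ H D) (hD : D ≤ D') : CovX χ H D' := by
  obtain ⟨T, h1, h2⟩ := h
  exact ⟨T, h1.trans hD, h2⟩

theorem CovX.trans {H : Subgroup G} {H' : Subgroup H} {D D' : ℕ} (h : CovX χ H D)
    (h' : CovX (χ.comp H.subtype) H' D') : CovX χ (H'.map H.subtype) (D * D') := by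
  classical
  obtain ⟨T, h1, h2⟩ := h
  obtain ⟨T', h1', h2'⟩ := h'
  refine ⟨(T ×ˢ T').image fun p => p.1 * (p.2 : G), ?_, fun g => ?_⟩
  · refine Finset.card_image_le.trans ?_
    rw [Finset.card_product]
    exact Nat.mul_le_mul h1 h1'
  · obtain ⟨t, ht, y, hy, e⟩ := h2 g
    obtain ⟨t', ht', y', hy', e'⟩ := h2' ⟨y, hy⟩
    refine ⟨t * t', Finset.mem_image.2 ⟨(t, t'), Finset.mem_product.2 ⟨ht, ht'⟩, rfl⟩, y', ⟨y', hy', rfl⟩, ?_⟩
    have e2 : χ y = χ t' * χ y' := e'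
    rw [e, e2, map_mul, mul_assoc]

/-- the linear map given by an element of the kernel -/
def lin (hs : Setup χ fx a M) (x : G) (hx : χ x = 1) : End QB W where
  toFun := a x
  map_add' := hs.add x
  map_smul' := fun c w => by
    rw [hs.semi, hx]
    rfl

theorem lin_mul (hs : Setup χ fx a M) {x y : G} (hx : χ x = 1) (hy : χ y = 1)
    (hxy : χ (x * y) = 1) : lin hs (x * y) hxy = lin hs x hx * lin hs y hy := by
  ext w
  exact hs.mul x y w

theorem lin_pow (hs : Setup χ fx a M) {x : G} (hx : χ x = 1) (j : ℕ) (hj : χ (x ^ j) = 1) :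
    lin hs (x ^ j) hj = lin hs x hx ^ j := by
  induction j with
  | zero =>
    ext w
    change a (x ^ 0) w = w
    rw [pow_zero, hs.one]
  | succ j ih =>
    have h1 : χ (x ^ j) = 1 := by rw [map_pow, hx, one_pow]
    ext w
    change a (x ^ (j + 1)) w = _
    rw [pow_succ, pow_succ, hs.mul, Module.End.mul_apply, ← ih h1]
    rfl

theorem lin_order (hs : Setup χ fx a M) {x : G} (hx : χ x = 1) :
    ∃ N : ℕ, 1 ≤ N ∧ lin hs x hx ^ N = 1 := by
  have := hs.ker
  refine ⟨Nat.card χ.ker, Nat.card_pos, ?_⟩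
  have h1 : x ^ Nat.card χ.ker = 1 := by
    have h2 : (⟨x, hx⟩ : χ.ker) ^ Nat.card χ.ker = 1 := pow_card_eq_one'
    exact congrArg Subtype.val h2
  have h2 : χ (x ^ Nat.card χ.ker) = 1 := by rw [h1, map_one]
  rw [← lin_pow hs hx _ h2]
  ext w
  change a (x ^ Nat.card χ.ker) w = w
  rw [h1, hs.one]

/-- semilinear maps and generalized eigenspaces -/
theorem gen_map (hs : Setup χ fx a M) {T T' : End QB W} {g : G} {c : QB}
    (h : ∀ w, T' (a g w) = c • a g (T w)) {μ : QB} {w : W} (hw : w ∈ T.maxGenEigenspace μ) :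
    a g w ∈ T'.maxGenEigenspace (c * χ g μ) := by
  rw [Module.End.mem_maxGenEigenspace] at hw ⊢
  obtain ⟨j, hj⟩ := hw
  refine ⟨j, ?_⟩
  have h1 : ∀ v, (T' - (c * χ g μ) • 1) (a g v) = c • a g ((T - μ • 1) v) := by
    intro v
    have h2 : (T - μ • 1) v = T v + (-μ) • v := by
      simp [sub_eq_add_neg]
    have h3 : (T' - (c * χ g μ) • (1 : End QB W)) (a g v) = T' (a g v) - (c * χ g μ) • a g v := by
      simp
    rw [h2, h3, hs.add, hs.semi, h, map_neg, smul_add, smul_smul, mul_neg, neg_smul, sub_eq_add_neg]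
  have h2 : ∀ i, ∀ v, ((T' - (c * χ g μ) • 1) ^ i) (a g v) = c ^ i • a g (((T - μ • 1) ^ i) v) := by
    intro i
    induction i with
    | zero => intro v; simp
    | succ i ih =>
      intro v
      have e1 : ∀ (A : End QB W) (u : W), (A ^ (i + 1)) u = A ((A ^ i) u) := fun A u => by
        rw [pow_succ', Module.End.mul_apply]
      rw [e1, e1, ih, map_smul, h1, smul_smul, ← pow_succ]
  rw [h2, hj, hs.zero, smul_zero]

/-- the conclusion of the splitting theorem -/
def Splits (χ : G →* GQ) (fx : G → X → Prop) (a : G → W → W) (D : ℕ) : Prop :=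
  ∃ H : Subgroup G, CovX χ H D ∧ Opn fx H ∧ ∃ V' V'' : Submodule QB W,
      IsCompl V' V'' ∧ V' ≠ ⊥ ∧ V'' ≠ ⊥ ∧ Stab a H V' ∧ Stab a H V''

theorem Splits.mono {D D' : ℕ} (h : Splits χ fx a D) (hD : D ≤ D') : Splits χ fx a D' := by
  obtain ⟨H, h1, h2⟩ := h
  exact ⟨H, h1.mono hD, h2⟩

theorem Splits.of_restrict {H : Subgroup G} (hH : Opn fx H) {D D' : ℕ} (hc : CovX χ H D)
    (h : Splits (χ.comp H.subtype) (fun (h : H) (x : X) => fx h x) (fun (h : H) (w : W) => a h w) D') :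
    Splits χ fx a (D * D') := by
  obtain ⟨H', h1, h2, V', V'', h3, h4, h5, h6, h7⟩ := h
  refine ⟨H'.map H.subtype, hc.trans h1, hH.trans h2, V', V'', h3, h4, h5, ?_, ?_⟩
  · rintro _ ⟨g, hg, rfl⟩ w hw
    exact h6 g hg w hw
  · rintro _ ⟨g, hg, rfl⟩ w hw
    exact h7 g hg w hw

/-- an operator which is preserved up to scalars -/
theorem perm_op (hs : Setup χ fx a M) [FiniteDimensional QB W] (T : End QB W)
    (hT : ∀ g, ∃ c : QB, ∀ w, T (a g w) = c • a g (T w)) {μ : QB}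
    (h0 : T.maxGenEigenspace μ ≠ ⊥) (h1 : T.maxGenEigenspace μ ≠ ⊤) :
    Splits χ fx a (finrank QB W) := by
  obtain ⟨H, h2, h3, h4⟩ := permuted hs T.maxGenEigenspace (Module.End.independent_maxGenEigenspace T)
    (Module.End.iSup_maxGenEigenspace_eq_top T) (fun g μ => by
      obtain ⟨c, hc⟩ := hT g
      exact ⟨c * χ g μ, fun w hw => gen_map hs hc hw⟩) μ h0 h1
  exact ⟨H, h2.covX, h3, h4⟩

theorem exists_gen [FiniteDimensional QB W] [Nontrivial W] (T : End QB W) :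
    ∃ μ : QB, T.maxGenEigenspace μ ≠ ⊥ := by
  by_contra h
  push Not at h
  have h1 := Module.End.iSup_maxGenEigenspace_eq_top T
  rw [iSup_eq_bot.2 h] at h1
  exact bot_ne_top h1

/-- **Case 1.** Some power of an element of the kernel is not scalar. -/
theorem case_one (hs : Setup χ fx a M) [FiniteDimensional QB W] [Nontrivial W]
    {x : G} (hx : χ x = 1) (hn : ¬ ∃ c : QB, ∀ w, a (x ^ M) w = c • w) :
    Splits χ fx a (finrank QB W) := by
  have hker : ∀ y : χ.ker, χ (y.1 ^ M) = 1 := fun y => by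
    rw [map_pow, show χ y.1 = 1 from y.2, one_pow]
  let f : χ.ker → End QB W := fun y => lin hs (y.1 ^ M) (hker y)
  have hcomm : ∀ i j, Commute (f i) (f j) := by
    intro i j
    have h1 := hs.jor i.1 j.1 i.2 j.2
    ext w
    change a (i.1 ^ M) (a (j.1 ^ M) w) = a (j.1 ^ M) (a (i.1 ^ M) w)
    rw [← hs.mul, ← hs.mul, h1]
  have hmaps : ∀ (i j : χ.ker) (φ : QB), Set.MapsTo (f i) ((f j).maxGenEigenspace φ : Set W)
      ((f j).maxGenEigenspace φ : Set W) := fun i j φ =>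
    Module.End.mapsTo_maxGenEigenspace_of_comm (hcomm j i) φ
  have hind := Module.End.independent_iInf_maxGenEigenspace_of_forall_mapsTo f hmaps
  have htop := Module.End.iSup_iInf_maxGenEigenspace_eq_top_of_forall_mapsTo f hmaps
    (fun i => Module.End.iSup_maxGenEigenspace_eq_top (f i))
  obtain ⟨ψ, hψ⟩ : ∃ ψ : χ.ker → QB, (⨅ i, (f i).maxGenEigenspace (ψ i)) ≠ ⊥ := by
    by_contra h
    push Not at h
    rw [iSup_eq_bot.2 h] at htop
    exact bot_ne_top htop
  have hψ1 : (⨅ i, (f i).maxGenEigenspace (ψ i)) ≠ ⊤ := by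
    intro h
    rw [iInf_eq_top] at h
    apply hn
    obtain ⟨N, hN1, hN2⟩ := lin_order hs (hker ⟨x, hx⟩)
    exact ⟨ψ ⟨x, hx⟩, fun w => scalar_of_genEigen hN1 hN2 (h ⟨x, hx⟩) w⟩
  obtain ⟨H, h2, h3, h4⟩ := permuted hs (fun ψ : χ.ker → QB => ⨅ i, (f i).maxGenEigenspace (ψ i))
    hind htop (fun g ψ => by
      have hc : ∀ i : χ.ker, χ (g⁻¹ * i.1 * g) = 1 := fun i => by
        rw [map_mul, map_mul, show χ i.1 = 1 from i.2, mul_one, ← map_mul, inv_mul_cancel, map_one]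
      refine ⟨fun i => χ g (ψ ⟨g⁻¹ * i.1 * g, hc i⟩), fun w hw => ?_⟩
      rw [Submodule.mem_iInf] at hw ⊢
      intro i
      have h5 := gen_map hs (T := f ⟨g⁻¹ * i.1 * g, hc i⟩) (T' := f i) (g := g) (c := 1) (fun v => by
        rw [one_smul]
        change a (i.1 ^ M) (a g v) = a g (a ((g⁻¹ * i.1 * g) ^ M) v)
        rw [← hs.mul, ← hs.mul]
        congr 1
        have h6 : (g⁻¹ * i.1 * g) ^ M = g⁻¹ * i.1 ^ M * g := by
          have h7 := conj_pow (i := M) (a := g⁻¹) (b := i.1)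
          rwa [inv_inv] at h7
        rw [h6]
        group) (hw ⟨g⁻¹ * i.1 * g, hc i⟩)
      rwa [one_mul] at h5) ψ hψ hψ1
  exact ⟨H, h2.covX, h3, h4⟩

end

end Pool.Agent.U770.FM
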