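import Pool.Agent.U770.FM.Split

/-!
# The splitting theorem: projectively bounded kernels
-/

set_option autoImplicit false
set_option linter.unusedSectionVars false

open Module

namespace Pool.Agent.U770.FM

theorem scalar_of_commute {W : Type} [AddCommGroup W] [Module QB W] [Nontrivial W]
    (z : End QB W) (h : ∀ u : End QB W, z * u = u * z) : ∃ c : QB, ∀ w, z w = c • w := by
  obtain ⟨w0, hw0⟩ := exists_ne (0 : W)
  obtain ⟨f, hf, -⟩ := Submodule.exists_le_ker_of_notMem (K := QB) (p := (⊥ : Submodule QB W))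
    (v := w0) (by simpa using hw0)
  refine ⟨f (z w0) / f w0, fun w => ?_⟩
  have h1 := LinearMap.congr_fun (h (f.smulRight w)) w0
  rw [Module.End.mul_apply, Module.End.mul_apply, LinearMap.smulRight_apply,
    LinearMap.smulRight_apply, map_smul] at h1
  rw [div_eq_inv_mul, mul_smul, ← h1, smul_smul, inv_mul_cancel₀ hf, one_smul]

section
variable {G X W : Type} [Group G] [AddCommGroup W] [Module QB W] {χ : G →* GQ}
  {fx : G → X → Prop} {a : G → W → W} {M : ℕ}

/-- conjugation -/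
noncomputable def cj (hs : Setup χ fx a M) (x : χ.ker) : End QB (End QB W) :=
  (LinearMap.mulLeft QB (lin hs x.1 x.2)) * (LinearMap.mulRight QB (lin hs (x⁻¹).1 (x⁻¹).2))

theorem cj_apply (hs : Setup χ fx a M) (x : χ.ker) (u : End QB W) (w : W) :
    cj hs x u w = a x.1 (u (a (x.1)⁻¹ w)) := rfl

theorem cj_one (hs : Setup χ fx a M) : cj hs 1 = 1 := by
  refine LinearMap.ext fun u => LinearMap.ext fun w => ?_
  rw [cj_apply]
  change a 1 (u (a 1⁻¹ w)) = u w
  rw [inv_one, hs.one, hs.one]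

theorem cj_mul (hs : Setup χ fx a M) (x y : χ.ker) : cj hs (x * y) = cj hs x * cj hs y := by
  refine LinearMap.ext fun u => LinearMap.ext fun w => ?_
  rw [Module.End.mul_apply, cj_apply, cj_apply, cj_apply]
  change a (x.1 * y.1) (u (a (x.1 * y.1)⁻¹ w)) = _
  rw [hs.mul, mul_inv_rev, hs.mul]

theorem cj_pow (hs : Setup χ fx a M) (x : χ.ker) (j : ℕ) : cj hs (x ^ j) = cj hs x ^ j := by
  induction j with
  | zero => rw [pow_zero, pow_zero, cj_one]
  | succ j ih => rw [pow_succ, pow_succ, cj_mul, ih]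

theorem cj_scalar (hs : Setup χ fx a M) (x : χ.ker) (h : ∃ c : QB, ∀ w, a x.1 w = c • w) :
    cj hs x = 1 := by
  obtain ⟨c, hc⟩ := h
  refine LinearMap.ext fun u => LinearMap.ext fun w => ?_
  rw [cj_apply, hc, ← map_smul, ← hc, hs.inv_right]
  rfl

theorem cj_eq (hs : Setup χ fx a M) [Nontrivial W] {x y : χ.ker} (h : cj hs x = cj hs y) :
    ∃ c : QB, ∀ w, a x.1 w = c • a y.1 w := by
  obtain ⟨c, hc⟩ := scalar_of_commute (lin hs (y⁻¹).1 (y⁻¹).2 * lin hs x.1 x.2) (by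
    intro u
    have h1 := LinearMap.congr_fun h u
    ext w
    have h2 := LinearMap.congr_fun h1 (a x.1 w)
    rw [cj_apply, cj_apply, hs.inv_left] at h2
    change a (y.1)⁻¹ (a x.1 (u w)) = u (a (y.1)⁻¹ (a x.1 w))
    rw [h2, hs.inv_left])
  refine ⟨c, fun w => ?_⟩
  have h3 : a (y.1)⁻¹ (a x.1 w) = c • w := hc w
  rw [← hs.inv_right y.1 (a x.1 w), h3, hs.semi, show χ y.1 = 1 from y.2]
  rfl

/-- **Case 2.** The `M`-th powers are scalar, some element is not. -/
theorem case_two (hs : Setup χ fx a M) (hM : 1 ≤ M) [FiniteDimensional QB W] [Nontrivial W]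
    (hall : ∀ x : χ.ker, ∃ c : QB, ∀ w, a (x.1 ^ M) w = c • w)
    {x0 : G} (hx0 : χ x0 = 1) (hn : ¬ ∃ c : QB, ∀ w, a x0 w = c • w) :
    Splits χ fx a (bnd M (finrank QB (End QB W)) * finrank QB W) := by
  classical
  have hcj : ∀ g : G, χ (g * x0 * g⁻¹) = 1 := fun g => by
    rw [map_mul, map_mul, hx0, mul_one, ← map_mul, mul_inv_cancel, map_one]
  have hne : ∀ g : G, ∀ c : QB, (∀ w, a (g * x0 * g⁻¹) w = c • a x0 w) → c ≠ 0 := by
    intro g c hc h0
    obtain ⟨w, hw⟩ := exists_ne (0 : W)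
    have h1 := hc w
    rw [h0, zero_smul] at h1
    exact hs.ne_zero _ hw h1
  have hswap : ∀ g : G, ∀ c : QB, (∀ w, a (g * x0 * g⁻¹) w = c • a x0 w) →
      ∀ w, a x0 (a g w) = c⁻¹ • a g (a x0 w) := by
    intro g c hc w
    have h1 := hc (a g w)
    rw [hs.mul, hs.inv_left, hs.mul] at h1
    rw [h1, smul_smul, inv_mul_cancel₀ (hne g c hc), one_smul]
  let K : Subgroup G :=
    { carrier := {g | ∃ c : QB, ∀ w, a (g * x0 * g⁻¹) w = c • a x0 w}
      one_mem' := ⟨1, fun w => by rw [one_mul, inv_one, mul_one, one_smul]⟩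
      mul_mem' := by
        rintro g h ⟨c, hc⟩ ⟨e, he⟩
        refine ⟨χ g e * c, fun w => ?_⟩
        have h1 : g * h * x0 * (g * h)⁻¹ = g * (h * x0 * h⁻¹) * g⁻¹ := by group
        rw [h1, hs.mul, hs.mul, he, hs.semi, mul_smul, ← hc w, hs.mul, hs.mul]
      inv_mem' := by
        rintro g ⟨c, hc⟩
        refine ⟨χ g⁻¹ c⁻¹, fun w => ?_⟩
        rw [inv_inv, hs.mul, hs.mul, hswap g c hc, hs.semi, hs.inv_left] }
  have hKo : Opn fx K := by
    obtain ⟨F, hF⟩ := (Module.Finite.fg_top : (⊤ : Submodule QB W).FG)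
    obtain ⟨S, hS⟩ := smooth_finset hs (F ∪ F.image (a x0))
    refine ⟨S, fun g hg => ⟨1, fun w => ?_⟩⟩
    rw [one_smul]
    have h1 := hS g hg
    have h2 : lin hs (g * x0 * g⁻¹) (hcj g) = lin hs x0 hx0 := by
      apply LinearMap.ext_on hF
      intro w hw
      change a (g * x0 * g⁻¹) w = a x0 w
      have h3 : a g⁻¹ w = w := by
        nth_rewrite 1 [← h1 w (Finset.mem_union_left _ hw)]
        exact hs.inv_left g w
      rw [hs.mul, hs.mul, h3]
      exact h1 _ (Finset.mem_union_right _ (Finset.mem_image_of_mem _ hw))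
    exact LinearMap.congr_fun h2 w
  -- the number of conjugates
  obtain ⟨hfin, hcard⟩ := exponent_bound hM (Set.range (cj hs)) ⟨1, cj_one hs⟩
    (by
      rintro _ ⟨x, rfl⟩ _ ⟨y, rfl⟩
      exact ⟨x * y, cj_mul hs x y⟩)
    (by
      rintro _ ⟨x, rfl⟩
      rw [← cj_pow]
      exact cj_scalar hs _ (hall x))
  have hKc : Cov K (bnd M (finrank QB (End QB W))) := by
    let c : End QB (End QB W) → G := fun s =>
      if h : ∃ g : G, cj hs ⟨g * x0 * g⁻¹, hcj g⟩ = s then h.choose else 1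
    refine ⟨hfin.toFinset.image c, ?_, fun g => ?_⟩
    · refine Finset.card_image_le.trans ?_
      rwa [← Set.ncard_eq_toFinset_card _ hfin]
    · have hex : ∃ t : G, cj hs ⟨t * x0 * t⁻¹, hcj t⟩ = cj hs ⟨g * x0 * g⁻¹, hcj g⟩ := ⟨g, rfl⟩
      have hc : c (cj hs ⟨g * x0 * g⁻¹, hcj g⟩) = hex.choose := dif_pos hex
      set t := c (cj hs ⟨g * x0 * g⁻¹, hcj g⟩) with ht
      have hts : cj hs ⟨t * x0 * t⁻¹, hcj t⟩ = cj hs ⟨g * x0 * g⁻¹, hcj g⟩ := by
        have h1 := hex.choose_spec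
        rw [← hc] at h1
        exact h1
      refine ⟨t, ?_, t⁻¹ * g, ?_, by group⟩
      · rw [ht]
        exact Finset.mem_image_of_mem _ (hfin.mem_toFinset.2 ⟨_, rfl⟩)
      · obtain ⟨e, he⟩ := cj_eq hs hts.symm
        refine ⟨χ t⁻¹ e, fun w => ?_⟩
        have h1 : t⁻¹ * g * x0 * (t⁻¹ * g)⁻¹ = t⁻¹ * (g * x0 * g⁻¹) * t := by group
        have h2 := he (a t w)
        change a (g * x0 * g⁻¹) (a t w) = e • a (t * x0 * t⁻¹) (a t w) at h2
        rw [h1, hs.mul, hs.mul, h2, hs.semi]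
        congr 1
        rw [← hs.mul, ← hs.mul]
        congr 1
        group
  refine Splits.of_restrict hKo hKc.covX ?_
  obtain ⟨μ, hμ⟩ := exists_gen (lin hs x0 hx0)
  refine perm_op (hs.restrict hKo) (lin hs x0 hx0) ?_ hμ ?_
  · rintro ⟨g, c, hc⟩
    exact ⟨c⁻¹, fun w => hswap g c hc w⟩
  · intro h
    apply hn
    obtain ⟨N, hN1, hN2⟩ := lin_order hs hx0
    exact ⟨μ, fun w => scalar_of_genEigen hN1 hN2 h w⟩

end

end Pool.Agent.U770.FM
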