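import Pool.Agent.U770.FM.Split2

/-!
# The splitting theorem: the case of a kernel of scalars, and the theorem
-/

set_option autoImplicit false
set_option linter.unusedSectionVars false

open Module

namespace Pool.Agent.U770.FM

section
variable {G X W : Type} [Group G] [AddCommGroup W] [Module QB W] {χ : G →* GQ}
  {fx : G → X → Prop} {a : G → W → W} {M : ℕ}

/-- conjugation of a linear map by a semilinear map -/
noncomputable def cl (hs : Setup χ fx a M) (g : G) (u : End QB W) : End QB W where
  toFun := fun w => a g (u (a g⁻¹ w))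
  map_add' := fun v w => by rw [hs.add, map_add, hs.add]
  map_smul' := fun c w => by
    rw [hs.semi, map_smul, hs.semi]
    congr 1
    change (χ g * χ g⁻¹) c = c
    rw [← map_mul, mul_inv_cancel, map_one]
    rfl

theorem cl_apply (hs : Setup χ fx a M) (g : G) (u : End QB W) (w : W) :
    cl hs g u w = a g (u (a g⁻¹ w)) := rfl

theorem cl_mul (hs : Setup χ fx a M) (g h : G) (u : End QB W) :
    cl hs (g * h) u = cl hs g (cl hs h u) := by
  ext w
  rw [cl_apply, cl_apply, cl_apply, mul_inv_rev, hs.mul, hs.mul]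

theorem cl_ker (hs : Setup χ fx a M) (h : ∀ x : χ.ker, ∃ c : QB, ∀ w, a x.1 w = c • w)
    {g g' : G} (hg : χ g = χ g') (u : End QB W) : cl hs g u = cl hs g' u := by
  have h1 : χ (g'⁻¹ * g) = 1 := by rw [map_mul, map_inv, hg, inv_mul_cancel]
  have h2 : g = g' * (g'⁻¹ * g) := by group
  rw [h2, cl_mul]
  congr 1
  obtain ⟨c, hc⟩ := h ⟨_, h1⟩
  ext w
  rw [cl_apply]
  have h3 : ∀ w, a (g'⁻¹ * g) w = c • w := hc
  rw [h3, ← map_smul, ← h3, hs.inv_right]

/-- the trace form argument -/
theorem trace_sq [FiniteDimensional QB W] {u : End QB W} {μ : QB}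
    (h : u.maxGenEigenspace μ = ⊤) : LinearMap.trace QB W u * LinearMap.trace QB W u =
      finrank QB W * LinearMap.trace QB W (u * u) := by
  set s : QB := (finrank QB W : QB) with hs
  have h1 : IsNilpotent (u - μ • (1 : End QB W)) := by
    refine ⟨finrank QB W, ?_⟩
    ext w
    have h2 : w ∈ u.maxGenEigenspace μ := h ▸ Submodule.mem_top
    rw [Module.End.maxGenEigenspace_eq_genEigenspace_finrank, Module.End.mem_genEigenspace_nat,
      LinearMap.mem_ker] at h2
    rw [h2, LinearMap.zero_apply]
  have h2 : LinearMap.trace QB W (u - μ • (1 : End QB W)) = 0 :=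
    (LinearMap.isNilpotent_trace_of_isNilpotent h1).eq_zero
  have h3 : LinearMap.trace QB W ((u - μ • (1 : End QB W)) * (u - μ • (1 : End QB W))) = 0 := by
    refine (LinearMap.isNilpotent_trace_of_isNilpotent ?_).eq_zero
    rw [← pow_two]
    exact h1.pow_of_pos two_ne_zero
  have e1 : (u - μ • (1 : End QB W)) * (u - μ • (1 : End QB W)) =
      u * u - (2 * μ) • u + (μ * μ) • (1 : End QB W) := by
    rw [sub_mul, mul_sub, mul_sub, smul_mul_assoc, smul_mul_assoc, mul_smul_comm, one_mul,
      mul_one, mul_smul_comm, mul_one]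
    module
  rw [map_sub, map_smul, LinearMap.trace_one, smul_eq_mul, ← hs] at h2
  rw [e1, map_add, map_sub, map_smul, map_smul, LinearMap.trace_one, smul_eq_mul, smul_eq_mul,
    ← hs] at h3
  have h4 : LinearMap.trace QB W u = μ * s := sub_eq_zero.1 h2
  rw [h4] at h3 ⊢
  linear_combination (-s) * h3

/-- **Case 3.** The kernel acts by scalars. -/
theorem case_three (hs : Setup χ fx a M) [FiniteDimensional QB W]
    (hdim : 2 ≤ finrank QB W) (hall : ∀ x : χ.ker, ∃ c : QB, ∀ w, a x.1 w = c • w) :
    Splits χ fx a (finrank QB W) := by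
  classical
  have hnt : Nontrivial W := Module.nontrivial_of_finrank_pos (R := QB) (by omega)
  let pick : GQ → G := fun σ => if h : ∃ g, χ g = σ then h.choose else 1
  have hpick : ∀ g : G, χ (pick (χ g)) = χ g := by
    intro g
    have hex : ∃ g', χ g' = χ g := ⟨g, rfl⟩
    have h1 : pick (χ g) = hex.choose := dif_pos hex
    rw [h1]
    exact hex.choose_spec
  have hcl : ∀ (g : G) (u : End QB W), cl hs (pick (χ g)) u = cl hs g u := fun g u =>
    cl_ker hs hall (hpick g) u
  have hspan := descent (R := End QB W) χ.range (fun σ u => cl hs (pick σ) u)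
    (by
      rintro _ ⟨g, rfl⟩ u v
      ext w
      simp only [LinearMap.add_apply, cl_apply]
      rw [hs.add])
    (by
      rintro _ ⟨g, rfl⟩ _ ⟨h, rfl⟩ u
      rw [← map_mul, hcl, hcl, hcl, cl_mul])
    (by
      rintro _ ⟨g, rfl⟩ c u
      ext w
      simp only [LinearMap.smul_apply]
      rw [hcl, hcl, cl_apply, cl_apply, LinearMap.smul_apply, hs.semi])
    (by
      intro u
      obtain ⟨F, hF⟩ := (Module.Finite.fg_top : (⊤ : Submodule QB W).FG)
      obtain ⟨S, hS⟩ := smooth_finset hs (F ∪ F.image u)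
      obtain ⟨Ω, h1, h2⟩ := hs.lift S
      refine ⟨Ω, h1, fun σ hσ => ?_⟩
      obtain ⟨g, rfl, h3⟩ := h2 σ hσ
      refine ⟨⟨g, rfl⟩, ?_⟩
      rw [hcl]
      apply LinearMap.ext_on hF
      intro w hw
      have h4 := hS g h3
      have h5 : a g⁻¹ w = w := by
        nth_rewrite 1 [← h4 w (Finset.mem_union_left _ hw)]
        exact hs.inv_left g w
      rw [cl_apply, h5]
      exact h4 _ (Finset.mem_union_right _ (Finset.mem_image_of_mem _ hw)))
  set I : Set (End QB W) := {u | ∀ σ ∈ χ.range, cl hs (pick σ) u = u} with hI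
  have hinv : ∀ u ∈ I, ∀ g w, u (a g w) = (1 : QB) • a g (u w) := by
    intro u hu g w
    have h1 := hu (χ g) ⟨g, rfl⟩
    rw [hcl] at h1
    have h2 := LinearMap.congr_fun h1 (a g w)
    rw [cl_apply, hs.inv_left] at h2
    rw [one_smul, h2]
  by_contra hno
  have honly : ∀ u ∈ I, LinearMap.trace QB W u * LinearMap.trace QB W u =
      finrank QB W * LinearMap.trace QB W (u * u) := by
    intro u hu
    obtain ⟨μ, hμ⟩ := exists_gen u
    refine trace_sq (μ := μ) ?_
    by_contra h1
    exact hno (perm_op hs u (fun g => ⟨1, hinv u hu g⟩) hμ h1)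
  have hIadd : ∀ u ∈ I, ∀ v ∈ I, u + v ∈ I := by
    rintro u hu v hv _ ⟨g, rfl⟩
    have h1 := hu (χ g) ⟨g, rfl⟩
    have h2 := hv (χ g) ⟨g, rfl⟩
    ext w
    have h3 := LinearMap.congr_fun h1 w
    have h4 := LinearMap.congr_fun h2 w
    rw [cl_apply] at h3 h4 ⊢
    rw [LinearMap.add_apply, LinearMap.add_apply, hs.add, h3, h4]
  have hbil : ∀ u ∈ I, ∀ v ∈ I, LinearMap.trace QB W u * LinearMap.trace QB W v =
      finrank QB W * LinearMap.trace QB W (u * v) := by
    intro u hu v hv
    have h1 := honly u hu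
    have h2 := honly v hv
    have h3 := honly _ (hIadd u hu v hv)
    have h4 : LinearMap.trace QB W ((u + v) * (u + v)) = LinearMap.trace QB W (u * u) +
        2 * LinearMap.trace QB W (u * v) + LinearMap.trace QB W (v * v) := by
      rw [add_mul, mul_add, mul_add, map_add, map_add, map_add, LinearMap.trace_mul_comm QB v u]
      ring
    rw [h4, map_add] at h3
    have h5 : (2 : QB) ≠ 0 := two_ne_zero
    apply mul_left_cancel₀ h5
    linear_combination h3 - h1 - h2
  have hb1 : ∀ u : End QB W, ∀ v ∈ I, LinearMap.trace QB W u * LinearMap.trace QB W v =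
      finrank QB W * LinearMap.trace QB W (u * v) := by
    intro u v hv
    have hu : u ∈ Submodule.span QB I := by rw [hspan]; exact Submodule.mem_top
    induction hu using Submodule.span_induction with
    | mem u hu => exact hbil u hu v hv
    | zero => rw [zero_mul, map_zero]; ring
    | add u u' _ _ h1 h2 => rw [add_mul, map_add, map_add, add_mul, h1, h2]; ring
    | smul c u _ h1 => rw [smul_mul_assoc, map_smul, map_smul, smul_eq_mul, smul_eq_mul, mul_assoc, h1]; ring
  have hb2 : ∀ u v : End QB W, LinearMap.trace QB W u * LinearMap.trace QB W v =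
      finrank QB W * LinearMap.trace QB W (u * v) := by
    intro u v
    have hv : v ∈ Submodule.span QB I := by rw [hspan]; exact Submodule.mem_top
    induction hv using Submodule.span_induction with
    | mem v hv => exact hb1 u v hv
    | zero => rw [mul_zero, map_zero]; ring
    | add v v' _ _ h1 h2 => rw [mul_add, map_add, map_add, mul_add, h1, h2]; ring
    | smul c v _ h1 =>
      rw [mul_smul_comm, map_smul, map_smul, smul_eq_mul, smul_eq_mul]
      linear_combination c * h1
  obtain ⟨w0, hw0⟩ := exists_ne (0 : W)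
  obtain ⟨f, hf, -⟩ := Submodule.exists_le_ker_of_notMem (K := QB) (p := (⊥ : Submodule QB W))
    (v := w0) (by simpa using hw0)
  have h6 := hb2 (f.smulRight w0) (f.smulRight w0)
  have h7 : f.smulRight w0 * f.smulRight w0 = f w0 • f.smulRight w0 := by
    ext w
    simp [smul_smul, mul_comm]
  rw [h7, map_smul, LinearMap.trace_smulRight, smul_eq_mul] at h6
  have h8 : (finrank QB W : QB) = 1 := by
    have h9 : f w0 * f w0 ≠ 0 := mul_ne_zero hf hf
    apply mul_right_cancel₀ h9
    rw [one_mul, ← h6]
  have h10 : finrank QB W = 1 := by exact_mod_cast h8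
  omega

/-- **The splitting theorem.** -/
theorem split (hs : Setup χ fx a M) (hM : 1 ≤ M) [FiniteDimensional QB W]
    (hdim : 2 ≤ finrank QB W) :
    Splits χ fx a ((bnd M (finrank QB (End QB W)) + 1) * finrank QB W) := by
  have hnt : Nontrivial W := Module.nontrivial_of_finrank_pos (R := QB) (by omega)
  by_cases h1 : ∀ x : χ.ker, ∃ c : QB, ∀ w, a (x.1 ^ M) w = c • w
  · by_cases h2 : ∀ x : χ.ker, ∃ c : QB, ∀ w, a x.1 w = c • w
    · exact (case_three hs hdim h2).mono (Nat.le_mul_of_pos_left _ (Nat.succ_pos _))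
    · push Not at h2
      obtain ⟨x, hx⟩ := h2
      refine (case_two hs hM h1 x.2 ?_).mono (Nat.mul_le_mul_right _ (Nat.le_succ _))
      rintro ⟨c, hc⟩
      obtain ⟨w, hw⟩ := hx c
      exact hw (hc w)
  · push Not at h1
    obtain ⟨x, hx⟩ := h1
    refine (case_one hs x.2 ?_).mono (Nat.le_mul_of_pos_left _ (Nat.succ_pos _))
    rintro ⟨c, hc⟩
    obtain ⟨w, hw⟩ := hx c
    exact hw (hc w)

end

end Pool.Agent.U770.FM
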