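import Pool.Agent.U770.FM.Desc

/-!
# Linear groups of finite exponent have bounded order
-/

set_option autoImplicit false
set_option linter.unusedSectionVars false

open Module

namespace Pool.Agent.U770.FM

variable {W : Type} [AddCommGroup W] [Module QB W] [FiniteDimensional QB W]

/-- sums of `s` numbers whose `M`-th power is one -/
def sums (M s : ℕ) : Set QB :=
  {t | ∃ m : Multiset QB, Multiset.card m = s ∧ (∀ z ∈ m, z ^ M = 1) ∧ m.sum = t}

theorem roots_finite {M : ℕ} (hM : 1 ≤ M) : {z : QB | z ^ M = 1}.Finite := by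
  have h : (Polynomial.X ^ M - Polynomial.C 1 : Polynomial QB) ≠ 0 :=
    Polynomial.X_pow_sub_C_ne_zero hM 1
  refine (Polynomial.finite_setOfPred_isRoot h).subset fun z hz => ?_
  simp only [Set.mem_ofPred_eq, Polynomial.IsRoot.def, Polynomial.eval_sub, Polynomial.eval_pow,
    Polynomial.eval_X, Polynomial.eval_C] at hz ⊢
  rw [hz, sub_self]

theorem sums_finite {M : ℕ} (hM : 1 ≤ M) (s : ℕ) : (sums M s).Finite := by
  have : Finite {z : QB | z ^ M = 1} := (roots_finite hM).to_subtype
  refine (Set.finite_range fun f : Fin s → {z : QB | z ^ M = 1} => ∑ i, (f i : QB)).subset ?_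
  rintro t ⟨m, rfl, hz, rfl⟩
  refine ⟨fun i => ⟨m.toList.get (i.cast (by simp)), hz _ ?_⟩, ?_⟩
  · exact Multiset.mem_toList.1 (List.get_mem _ _)
  · simp only
    have h1 : (m.toList).sum = m.sum := by
      rw [← Multiset.sum_coe, Multiset.coe_toList]
    rw [← h1]
    have h2 : ∀ (l : List QB) (n : ℕ) (h : n = l.length),
        ∑ i : Fin n, l.get (i.cast h) = l.sum := by
      intro l n h
      subst h
      simp [Fin.sum_univ_getElem]
    exact h2 _ _ _

theorem eigen_pow {M : ℕ} {T : End QB W} (hT : T ^ M = 1) {z : QB} (hz : T.HasEigenvalue z) :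
    z ^ M = 1 := by
  obtain ⟨v, hv⟩ := hz.exists_hasEigenvector
  have h1 := hv.pow_apply M
  rw [hT] at h1
  have h2 : (z ^ M - 1) • v = 0 := by
    rw [sub_smul, one_smul, ← h1]
    simp
  rcases smul_eq_zero.1 h2 with h3 | h3
  · exact sub_eq_zero.1 h3
  · exact absurd h3 hv.2

/-- the eigenvalues with multiplicities -/
theorem exists_eigen (T : End QB W) : ∃ m : Multiset QB, Multiset.card m = finrank QB W ∧
    (∀ z, z ∈ m ↔ T.HasEigenvalue z) ∧ m.sum = LinearMap.trace QB W T := by
  classical
  let b := finBasis QB W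
  refine ⟨(LinearMap.toMatrix b b T).charpoly.roots, ?_, ?_, ?_⟩
  · rw [Polynomial.splits_iff_card_roots.1 (IsAlgClosed.splits _), Matrix.charpoly_natDegree_eq_dim,
      Fintype.card_fin]
  · intro z
    rw [Polynomial.mem_roots (Matrix.charpoly_monic _).ne_zero, LinearMap.charpoly_toMatrix,
      Module.End.hasEigenvalue_iff_isRoot_charpoly]
  · rw [LinearMap.trace_eq_matrix_trace QB b T, Matrix.trace_eq_sum_roots_charpoly]

theorem trace_mem {M : ℕ} {T : End QB W} (hT : T ^ M = 1) :
    LinearMap.trace QB W T ∈ sums M (finrank QB W) := by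
  obtain ⟨m, h1, h2, h3⟩ := exists_eigen T
  exact ⟨m, h1, fun z hz => eigen_pow hT ((h2 z).1 hz), h3⟩

theorem semisimple_of_pow {M : ℕ} (hM : 1 ≤ M) {T : End QB W} (hT : T ^ M = 1) :
    T.IsSemisimple := by
  have hs : (Polynomial.X ^ M - 1 : Polynomial QB).Separable :=
    Polynomial.separable_X_pow_sub_C (1 : QB) (by
      have : (M : QB) ≠ 0 := by exact_mod_cast (show M ≠ 0 by omega)
      exact this) one_ne_zero
  refine Module.End.isSemisimple_of_squarefree_aeval_eq_zero hs.squarefree ?_
  simp [hT]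

theorem genEigen_eq {M : ℕ} (hM : 1 ≤ M) {T : End QB W} (hT : T ^ M = 1) (μ : QB) :
    T.maxGenEigenspace μ = T.eigenspace μ :=
  (semisimple_of_pow hM hT).isFinitelySemisimple.maxGenEigenspace_eq_eigenspace μ

/-- a map of finite order with one eigenvalue is scalar -/
theorem scalar_of_genEigen {M : ℕ} (hM : 1 ≤ M) {T : End QB W} (hT : T ^ M = 1) {μ : QB}
    (h : T.maxGenEigenspace μ = ⊤) (w : W) : T w = μ • w := by
  rw [genEigen_eq hM hT] at h
  exact Module.End.mem_eigenspace_iff.1 (h ▸ Submodule.mem_top)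

theorem genEigen_top {T : End QB W} {μ : QB} (h : ∀ z, T.HasEigenvalue z → z = μ) :
    T.maxGenEigenspace μ = ⊤ := by
  have h1 := Module.End.iSup_maxGenEigenspace_eq_top T
  rw [eq_top_iff, ← h1]
  refine iSup_le fun z => ?_
  by_cases hz : T.HasEigenvalue z
  · rw [h z hz]
  · have h2 : T.eigenspace z = ⊥ := by
      by_contra h3
      exact hz (Module.End.hasEigenvalue_iff.2 h3)
    intro m hm
    obtain ⟨j, hj⟩ := (Module.End.mem_maxGenEigenspace _ _ _).1 hm
    have h3 : m = 0 := by
      induction j with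
      | zero => simpa using hj
      | succ j ih =>
        apply ih
        rw [pow_succ', Module.End.mul_apply] at hj
        have h4 : ((T - z • 1) ^ j) m ∈ T.eigenspace z := by
          rw [Module.End.mem_eigenspace_iff]
          have h5 : T (((T - z • 1) ^ j) m) - z • (((T - z • 1) ^ j) m) = 0 := by
            simpa using hj
          exact sub_eq_zero.1 h5
        rw [h2] at h4
        exact (Submodule.mem_bot _).1 h4
    rw [h3]
    exact Submodule.zero_mem _

section one

/-- an embedding in the complex numbers -/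
noncomputable def emb : QB →+* ℂ := (IsAlgClosed.lift (R := ℚ) (S := QB) (M := ℂ) : QB →ₐ[ℚ] ℂ).toRingHom

theorem norm_emb {M : ℕ} (hM : 1 ≤ M) {z : QB} (hz : z ^ M = 1) : ‖emb z‖ = 1 := by
  have h : (emb z) ^ M = 1 := by rw [← map_pow, hz, map_one]
  exact Complex.norm_eq_one_of_pow_eq_one h (by omega)

theorem re_le {M : ℕ} (hM : 1 ≤ M) (m : Multiset QB) (h : ∀ z ∈ m, z ^ M = 1) :
    (emb m.sum).re ≤ Multiset.card m := by
  induction m using Multiset.induction_on with
  | empty => simp
  | cons a m ih =>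
    have h1 := ih fun z hz => h z (Multiset.mem_cons_of_mem hz)
    have h2 : (emb a).re ≤ 1 := by
      rw [← norm_emb hM (h a (Multiset.mem_cons_self a m))]
      exact Complex.re_le_norm _
    rw [Multiset.sum_cons, map_add, Complex.add_re, Multiset.card_cons]
    push_cast
    linarith

theorem all_one {M : ℕ} (hM : 1 ≤ M) (m : Multiset QB) (h : ∀ z ∈ m, z ^ M = 1)
    (hs : m.sum = (Multiset.card m : QB)) : ∀ z ∈ m, z = 1 := by
  intro z hz
  obtain ⟨m', rfl⟩ := Multiset.exists_cons_of_mem hz
  have h1 := re_le hM m' fun y hy => h y (Multiset.mem_cons_of_mem hy)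
  have h2 : (emb (z ::ₘ m').sum).re = Multiset.card (z ::ₘ m') := by
    rw [hs, map_natCast]
    simp
  rw [Multiset.sum_cons, map_add, Complex.add_re, Multiset.card_cons] at h2
  push_cast at h2
  have h3 : 1 ≤ (emb z).re := by linarith
  have h4 := norm_emb hM (h z hz)
  have h5 : (emb z).re = 1 := le_antisymm (by rw [← h4]; exact Complex.re_le_norm _) h3
  have h6 : (emb z).im = 0 := by
    have h7 := Complex.sq_norm (emb z)
    rw [h4, Complex.normSq_apply, h5] at h7
    nlinarith
  have h8 : emb z = 1 := Complex.ext (by simpa using h5) (by simpa using h6)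
  exact emb.injective (by rw [h8, map_one])

end one

theorem eq_one_of_trace {M : ℕ} (hM : 1 ≤ M) {T : End QB W} (hT : T ^ M = 1)
    (ht : LinearMap.trace QB W T = finrank QB W) : T = 1 := by
  obtain ⟨m, h1, h2, h3⟩ := exists_eigen T
  have h4 := all_one hM m (fun z hz => eigen_pow hT ((h2 z).1 hz)) (by rw [h3, ht, h1])
  have h5 := genEigen_top (T := T) (μ := 1) fun z hz => h4 z ((h2 z).2 hz)
  ext w
  rw [scalar_of_genEigen hM hT h5]
  simp

/-- the bound for the order of a linear group of dimension `s` and exponent `M` -/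
noncomputable def bnd (M s : ℕ) : ℕ := (sums M s).ncard ^ (s ^ 2)

/-- **Linear groups of finite exponent.** -/
theorem exponent_bound {M : ℕ} (hM : 1 ≤ M) (S : Set (End QB W)) (h1 : 1 ∈ S)
    (hmul : ∀ x ∈ S, ∀ y ∈ S, x * y ∈ S) (hpow : ∀ x ∈ S, x ^ M = 1) :
    S.Finite ∧ S.ncard ≤ bnd M (finrank QB W) := by
  classical
  obtain ⟨b, hbS, hspan, hli⟩ := exists_linearIndependent QB S
  have hbfin : Finite b := hli.finite
  have : Fintype b := Fintype.ofFinite b
  have hfs : Finite (sums M (finrank QB W)) := (sums_finite hM _).to_subtype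
  let Φ : S → (b → sums M (finrank QB W)) := fun x y =>
    ⟨LinearMap.trace QB W (x.1 * y.1), trace_mem (hpow _ (hmul _ x.2 _ (hbS y.2)))⟩
  have hpS : ∀ x ∈ S, ∀ j : ℕ, x ^ j ∈ S := by
    intro x hx j
    induction j with
    | zero => rw [pow_zero]; exact h1
    | succ j ih => rw [pow_succ]; exact hmul _ ih _ hx
  have hinj : Function.Injective Φ := by
    intro x x' h
    have h2 : ∀ y ∈ Submodule.span QB S, LinearMap.trace QB W (x.1 * y) =
        LinearMap.trace QB W (x'.1 * y) := by
      intro y hy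
      rw [← hspan] at hy
      induction hy using Submodule.span_induction with
      | mem y hy => exact congrArg Subtype.val (congrFun h ⟨y, hy⟩)
      | zero => rw [mul_zero, mul_zero]
      | add y z _ _ ihy ihz => rw [mul_add, mul_add, map_add, map_add, ihy, ihz]
      | smul c y _ ih => rw [mul_smul_comm, mul_smul_comm, map_smul, map_smul, ih]
    have h3 := h2 _ (Submodule.subset_span (hpS x.1 x.2 (M - 1)))
    have h4 : x.1 * x.1 ^ (M - 1) = 1 := by
      rw [← pow_succ', Nat.sub_add_cancel hM, hpow _ x.2]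
    have h4' : x.1 ^ (M - 1) * x.1 = 1 := by
      rw [← pow_succ, Nat.sub_add_cancel hM, hpow _ x.2]
    rw [h4, LinearMap.trace_one] at h3
    have h5 := eq_one_of_trace hM (hpow _ (hmul _ x'.2 _ (hpS x.1 x.2 (M - 1)))) h3.symm
    apply Subtype.ext
    calc x.1 = (x'.1 * x.1 ^ (M - 1)) * x.1 := by rw [h5, one_mul]
      _ = x'.1 := by rw [mul_assoc, h4', mul_one]
  have hfin : Finite S := Finite.of_injective Φ hinj
  refine ⟨Set.toFinite S, ?_⟩
  have h6 : Nat.card S ≤ Nat.card (b → sums M (finrank QB W)) := Nat.card_le_card_of_injective Φ hinj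
  rw [Nat.card_fun] at h6
  rw [← Nat.card_coe_set_eq]
  refine h6.trans ?_
  unfold bnd
  rw [Nat.card_coe_set_eq]
  refine Nat.pow_le_pow_right ?_ ?_
  · refine Nat.pos_of_ne_zero ?_
    intro h0
    have h7 : (sums M (finrank QB W)) = ∅ := by
      rwa [Set.ncard_eq_zero (sums_finite hM _)] at h0
    have h8 := trace_mem (W := W) (M := M) (T := 1) (one_pow M)
    rw [h7] at h8
    exact h8
  · rw [Nat.card_eq_fintype_card]
    have h9 := hli.fintype_card_le_finrank
    rwa [Module.finrank_linearMap, ← pow_two] at h9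

end Pool.Agent.U770.FM
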